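import Pool.Agent.Lib.MP_c7af3c_ag.SHARP.H26.Pair

/-!
# MP_c7af3c_ag, project LINES: a single column gives a line, the refined height inequality
-/

set_option autoImplicit false
set_option linter.unusedSectionVars false

namespace Pool.Agent.Lines.H19

open MvPolynomial WithZero Pool.Agent.Gen Pool.Agent.Sharp

section
variable {L : Type} [Field L] {n c : ℕ} {d : Fin c → ℕ} (D : DSys L n c d)
  (x : Fin (n + 1) → L)

/-- `det(K, U^(i)) = det(K, U^(j0)) x_i^D`, without independence -/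
theorem detU' {ι : Type} [Fintype ι] [DecidableEq ι] (h0 : ∀ m, eval x (D.F m) = 0)
    (K : ι → Fin (n + 1) → L)
    (hker : ∀ a m, ∑ p, eval x (pderiv p (D.F m)) * K a p = 0)
    (hcard : Fintype.card ι + c = n + 1) {j0 : Fin (n + 1)} (hj0 : x j0 = 1)
    (e : ι ⊕ Fin c ≃ Fin (n + 1)) (i : Fin (n + 1)) :
    Matrix.det (Matrix.of fun a k => colU D x K i k (e a)) =
      Matrix.det (Matrix.of fun a k => colU D x K j0 k (e a)) * x i ^ (∑ m, d m) := by
  by_cases hK : LinearIndependent L K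
  · obtain ⟨μ, -, hμ⟩ := detU D x h0 K hK hker hcard hj0 e
    rw [hμ i, hμ j0, hj0, one_pow, mul_one]
  · have h1 : ∀ i, Matrix.det (Matrix.of fun a k => colU D x K i k (e a)) = 0 := by
      intro i
      by_contra hne
      apply hK
      have h2 : LinearIndependent L (fun k a => colU D x K i k (e a)) := by
        have h3 : (Matrix.of fun a k => colU D x K i k (e a)) =
          Matrix.transpose (Matrix.of fun k a => colU D x K i k (e a)) := rfl
        rw [h3, Matrix.det_transpose] at hne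
        exact Matrix.linearIndependent_rows_iff_isUnit.2
          ((Matrix.isUnit_iff_isUnit_det _).2 (isUnit_iff_ne_zero.2 hne))
      have h4 : LinearIndependent L (colU D x K i) := by
        refine LinearIndependent.of_comp (LinearMap.funLeft L L e) ?_
        exact h2
      exact h4.comp Sum.inl Sum.inl_injective
    rw [h1, h1, zero_mul]

variable {ι : Type} [Fintype ι] [DecidableEq ι]

/-- the matrix with a variable column -/
noncomputable def MQ (K : ι → Fin (n + 1) → L) (j0 : Fin (n + 1))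
    (e : (ι ⊕ Unit) ⊕ Fin c ≃ Fin (n + 1)) (v : Fin (n + 1) → L) :
    Matrix ((ι ⊕ Unit) ⊕ Fin c) ((ι ⊕ Unit) ⊕ Fin c) L :=
  Matrix.of fun a k => colU D x (Sum.elim K fun _ => v) j0 k (e a)

theorem MQ_eq (K : ι → Fin (n + 1) → L) (j0 : Fin (n + 1))
    (e : (ι ⊕ Unit) ⊕ Fin c ≃ Fin (n + 1)) (v : Fin (n + 1) → L) :
    MQ D x K j0 e v = (MQ D x K j0 e 0).updateCol (Sum.inl (Sum.inr ())) fun a => v (e a) := by
  ext a k
  rcases k with ((k | _) | m)
  · rw [Matrix.updateCol_ne (by simp)]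
    rfl
  · rw [Matrix.updateCol_self]
    rfl
  · rw [Matrix.updateCol_ne (by simp)]
    rfl

/-- the determinant as a function of the variable column -/
theorem det_MQ_comb (K : ι → Fin (n + 1) → L) (j0 : Fin (n + 1))
    (e : (ι ⊕ Unit) ⊕ Fin c ≃ Fin (n + 1)) (a b : L) (v v' : Fin (n + 1) → L) :
    (MQ D x K j0 e (a • v - b • v')).det =
      a * (MQ D x K j0 e v).det - b * (MQ D x K j0 e v').det := by
  rw [MQ_eq D x K j0 e (a • v - b • v'), MQ_eq D x K j0 e v, MQ_eq D x K j0 e v']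
  have h1 : (fun k => (a • v - b • v') (e k)) =
      a • (fun k => v (e k)) + (-b) • (fun k => v' (e k)) := by
    funext k
    simp only [Pi.sub_apply, Pi.smul_apply, Pi.add_apply, smul_eq_mul]
    ring
  rw [h1, Matrix.det_updateCol_add, Matrix.det_updateCol_smul, Matrix.det_updateCol_smul]
  ring

end

section pair
variable {L : Type} [Field L] {n c : ℕ} {d : Fin c → ℕ} (D : DSys L n c d)
  (x : Fin (n + 1) → L)

/-- module HPAIRL: one single column gives a line -/
theorem hpairL {j0 : Fin (n + 1)} (hj0 : x j0 = 1) (h0 : ∀ m, eval x (D.F m) = 0)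
    (S : PlaceSys L) (hS : S.IsProd) (B : S.V → ℕ) (hB : BD S D B) {w P t : ℕ}
    (W : Fin w → Fin (n + 1) × Fin (n + 1))
    (A : Fin P → Fin c → MvPolynomial (Fin (n + 1)) L) (hA : ∀ j, Adm d (A j))
    (hA' : ∀ p j m, CB (S.v p) (A j m) 1) (i i' : Fin P → Fin (n + 1))
    (A2 : Fin t → Fin c → MvPolynomial (Fin (n + 1)) L) (hA2 : ∀ j, Adm d (A2 j))
    (hA2' : ∀ p j m, CB (S.v p) (A2 j m) 1) (i2 : Fin t → Fin (n + 1))
    (A0 : Fin c → MvPolynomial (Fin (n + 1)) L) (hA0 : Adm d A0)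
    (hA0' : ∀ p m, CB (S.v p) (A0 m) 1) (i0 : Fin (n + 1))
    (hli : LinearIndependent L (Sum.elim (colP D x j0 W A i i' A2 i2)
      fun _ : Unit => VT D x (mulT A0 (lf x j0 i0))))
    (hcard : 1 + w + (P + P + t) + 1 + c = n + 1) :
    ∃ y : Fin (n + 1) → L, LinearIndependent L ![x, y] ∧
    ((∑ m, d m : ℕ) : ℤ) * S.ht x + hL S x y ≤
      (2 * n + 2) * tot S B + (1 + w + 3 * P + 2 * t + 2 + c) * S.ht x := by
  classical
  have hx : x ≠ 0 := fun h0 => by rw [h0] at hj0; exact zero_ne_one hj0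
  -- the kernel
  have hkerL : ∀ l : MvPolynomial (Fin (n + 1)) L, l.IsHomogeneous 1 → eval x l = 0 →
      ∀ a m, ∑ p, eval x (pderiv p (D.F m)) * (Sum.elim (colP D x j0 W A i i' A2 i2)
      fun _ : Unit => VT D x (mulT A0 l)) a p = 0 := by
    rintro l hl hlx (((_ | a) | ((j | j) | j)) | _) m
    · exact grad_x D x h0 m
    · exact grad_WT D x h0 _ _ m
    · exact grad_mulT D x h0 (hA j) (hom_lf x j0 _) (eval_lf x hj0 _) m
    · exact grad_mulT D x h0 (hA j) (hom_lf x j0 _) (eval_lf x hj0 _) m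
    · exact grad_mulT D x h0 (hA2 j) (hom_lf x j0 _) (eval_lf x hj0 _) m
    · exact grad_mulT D x h0 hA0 hl hlx m
  have hc : Fintype.card (((Unit ⊕ Fin w) ⊕ ((Fin P ⊕ Fin P) ⊕ Fin t)) ⊕ Unit) + c = n + 1 := by
    simp only [Fintype.card_sum, Fintype.card_fin, Fintype.card_unit]
    omega
  have e : (((Unit ⊕ Fin w) ⊕ ((Fin P ⊕ Fin P) ⊕ Fin t)) ⊕ Unit) ⊕ Fin c ≃ Fin (n + 1) := by
    refine Fintype.equivOfCardEq ?_
    rw [Fintype.card_sum, Fintype.card_fin, hc, Fintype.card_fin]
  set K := colP D x j0 W A i i' A2 i2 with hK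
  set y : Fin (n + 1) → L := fun k => (MQ D x K j0 e (VT D x (mulT A0 (lf x j0 k)))).det with hy
  -- the coordinates of the line
  have hcomb : ∀ a b, C (x a) * X b - C (x b) * X a =
      x a • lf x j0 b - x b • lf x j0 a := by
    intro a b
    unfold lf
    simp only [smul_eq_C_mul]
    ring
  have hplu : ∀ a b, plu x y a b =
      (MQ D x K j0 e (VT D x (mulT A0 (C (x a) * X b - C (x b) * X a)))).det := by
    intro a b
    have h1 : VT D x (mulT A0 (C (x a) * X b - C (x b) * X a)) =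
        x a • VT D x (mulT A0 (lf x j0 b)) - x b • VT D x (mulT A0 (lf x j0 a)) := by
      rw [hcomb, sub_eq_add_neg, ← neg_smul, VT_mulT_add, VT_mulT_smul, VT_mulT_smul, neg_smul,
        ← sub_eq_add_neg]
    rw [h1, det_MQ_comb]
    rfl
  have hyj0 : y j0 = 0 := by
    have h1 : mulT A0 (lf x j0 j0) = 0 := by
      funext m
      unfold mulT lf
      rw [hj0, C_1, one_mul, sub_self, mul_zero]
      rfl
    change (MQ D x K j0 e (VT D x (mulT A0 (lf x j0 j0)))).det = 0
    rw [h1, map_zero]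
    refine Matrix.det_eq_zero_of_column_eq_zero (Sum.inl (Sum.inr ())) fun a => ?_
    rfl
  have hyi0 : y i0 ≠ 0 := by
    obtain ⟨μ, hμ, hdet⟩ := detU D x h0 _ hli (hkerL _ (hom_lf x j0 i0) (eval_lf x hj0 i0)) hc
      hj0 e
    have h1 := hdet j0
    rw [hj0, one_pow, mul_one] at h1
    change (MQ D x K j0 e (VT D x (mulT A0 (lf x j0 i0)))).det ≠ 0
    unfold MQ
    rw [h1]
    exact hμ
  have hpl : plu x y j0 i0 ≠ 0 := by
    unfold plu
    rw [hj0, hyj0, mul_zero, sub_zero, one_mul]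
    exact hyi0
  refine ⟨y, ?_, ?_⟩
  · rw [LinearIndependent.pair_iff]
    intro a b hab
    have h1 := congrFun hab j0
    have h2 := congrFun hab i0
    simp only [Pi.add_apply, Pi.smul_apply, smul_eq_mul, Pi.zero_apply, hj0, hyj0, mul_one,
      mul_zero, add_zero] at h1 h2
    rw [h1, zero_mul, zero_add] at h2
    exact ⟨h1, (mul_eq_zero.1 h2).resolve_right hyi0⟩
  -- the local inequality
  have hloc : ∀ p, S.v p 1 * S.mx x p ^ (∑ m, d m) * mxP S x y p ^ 1 ≤
      exp (B p : ℤ) ^ (2 * n + 2) * S.mx x p ^ (1 + w + 3 * P + 2 * t + 2 + c) *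
        mxP S x y p ^ 0 * S.v p 1 ^ 0 := by
    intro p
    obtain ⟨a0, b0, hab⟩ := exists_mxP S x y p
    rw [map_one, one_mul, pow_one, pow_zero, pow_zero, mul_one, mul_one, ← hab]
    obtain ⟨iv, hiv⟩ := S.exists_mx x p
    have hs0 : S.mx x p ≠ 0 := S.mx_ne_zero x hx p
    have hs1 : 1 ≤ S.mx x p := S.one_le_mx x hj0 p
    have hiv0 : x iv ≠ 0 := fun h => hs0 (by rw [← hiv, h, map_zero])
    have hle : ∀ j, S.v p (x j) ≤ S.v p (x iv) := fun j => by rw [hiv]; exact S.le_mx x p j
    have h1 : 1 ≤ S.v p (x iv) := by rw [hiv]; exact hs1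
    set M : ℤᵐ⁰ := exp (B p : ℤ) with hMdef
    have hM : 1 ≤ M := by
      rw [hMdef, ← exp_zero]
      exact WithZero.exp_le_exp.2 (by positivity)
    have hdel : ∀ m I, I.degree = d m → ∀ f, S.v p f ≤ 1 → S.v p (D.del m I f) ≤ M :=
      fun m I hI f hf => hB.del p m I hI f hf
    have hF : ∀ m, CB (S.v p) (D.F m) M := fun m I => hB.F p m I
    -- the last column
    set l0 : MvPolynomial (Fin (n + 1)) L := C (x a0) * X b0 - C (x b0) * X a0 with hl0
    have hl0h : l0.IsHomogeneous 1 := (hom_CX _ _).sub (hom_CX _ _)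
    have hl0x : eval x l0 = 0 := by
      rw [hl0, map_sub, map_mul, map_mul, eval_C, eval_C, eval_X, eval_X]
      ring
    obtain ⟨N0, hN0, hN0'⟩ := VT_red D x hdel hiv0 hle hA0 (hA0' p) hl0h
      (b := S.v p (x iv))
      (CB.sub _ ((CB_CX _ (x a0) b0).mono _ (hle a0)) ((CB_CX _ (x b0) a0).mono _ (hle b0)))
    -- the columns `W`
    choose NW hNW hNW' using fun a : Fin w =>
      WT_red D x hM hdel hF hiv0 hle (W a).1 (W a).2
    -- the singles
    choose NS hNS hNS' using fun j : Fin t =>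
      VT_red D x hdel hiv0 hle (hA2 j) (hA2' p j) (hom_lf x j0 (i2 j))
        (CB_lf x (j0 := j0) (i2 j) h1 (hle (i2 j)))
    -- the pairs
    have hpairs : ∀ j : Fin P, ∃ (N N' : Fin (n + 1) → L) (σ σ' : ℤᵐ⁰) (r r' : ℕ),
        1 ≤ r ∧ 1 ≤ r' ∧
        (VT D x (mulT (A j) (lf x j0 (i j))) - x iv • N ∈
          Submodule.span L ({x} ∪ {u | r' < r ∧ VT D x (mulT (A j) (lf x j0 (i' j))) = u})) ∧
        (VT D x (mulT (A j) (lf x j0 (i' j))) - x iv • N' ∈
          Submodule.span L ({x} ∪ {u | r < r' ∧ VT D x (mulT (A j) (lf x j0 (i j))) = u})) ∧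
        (∀ a, S.v p (N a) ≤ σ) ∧ (∀ a, S.v p (N' a) ≤ σ') ∧
          σ * σ' ≤ S.v p (x iv) * (M * M) := by
      intro j
      rcases le_total (S.v p (x (i' j))) (S.v p (x (i j))) with hii | hii
      · obtain ⟨N, N', σ, σ', q1, q2, q3, q4, q5⟩ :=
          pair_red D x hdel (j0 := j0) hiv0 h1 hle (hA j) (hA' p j) hii
        refine ⟨N, N', σ, σ', 1, 2, le_rfl, one_le_two, ?_, ?_, q3, q4, q5⟩
        · exact Submodule.span_mono (by simp) q1
        · refine Submodule.span_mono ?_ q2
          rintro u (rfl | rfl)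
          · left; rfl
          · right; exact ⟨one_lt_two, rfl⟩
      · obtain ⟨N, N', σ, σ', q1, q2, q3, q4, q5⟩ :=
          pair_red D x hdel (j0 := j0) hiv0 h1 hle (hA j) (hA' p j) hii
        refine ⟨N', N, σ', σ, 2, 1, one_le_two, le_rfl, ?_, ?_, q4, q3, by
          rw [mul_comm]; exact q5⟩
        · refine Submodule.span_mono ?_ q2
          rintro u (rfl | rfl)
          · left; rfl
          · right; exact ⟨one_lt_two, rfl⟩
        · exact Submodule.span_mono (by simp) q1
    choose NP NP' σP σP' rP rP' q1 q2 q3 q4 q5 q6 q7 using hpairs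
    have hx1 : x - (1 * x iv) • ((x iv)⁻¹ • x) = 0 := by
      rw [one_mul, smul_smul, mul_inv_cancel₀ hiv0, one_smul, sub_self]
    have hdet : Matrix.det (Matrix.of fun a k => colU D x (Sum.elim K
        fun _ : Unit => VT D x (mulT A0 l0)) iv k (e a)) = plu x y a0 b0 * x iv ^ (∑ m, d m) := by
      rw [detU' D x h0 _ (hkerL l0 hl0h hl0x) hc hj0 e iv, hplu a0 b0]
      rfl
    have key := local_bound D x (S.v p) M hdel hiv0 hle
      (Sum.elim K fun _ : Unit => VT D x (mulT A0 l0))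
      (Sum.inl (Sum.inl (Sum.inl ()))) rfl
      (Sum.elim (Sum.elim (Sum.elim (fun _ => 0) fun _ => 1)
        (Sum.elim (Sum.elim rP rP') fun _ => 1)) fun _ => 1)
      (Sum.elim (Sum.elim (Sum.elim (fun _ => (x iv)⁻¹ • x) NW)
        (Sum.elim (Sum.elim NP NP') NS)) fun _ => N0)
      (fun _ => 1)
      (Sum.elim (Sum.elim (Sum.elim (fun _ => 1) fun _ => M * M)
        (Sum.elim (Sum.elim σP σP') fun _ => S.v p (x iv) * M)) fun _ => S.v p (x iv) * M) ?_ ?_
        e (plu x y a0 b0) hdet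
    · rw [hiv] at key
      simp only [Fintype.prod_sum_type, Sum.elim_inl, Sum.elim_inr, map_one, one_mul,
        Finset.prod_const_one, Finset.prod_const, Finset.card_univ, Fintype.card_fin,
        Fintype.card_unit, pow_one] at key
      rw [← Finset.prod_mul_distrib] at key
      have hP : ∏ j, σP j * σP' j ≤ (S.mx x p * (M * M)) ^ P := by
        calc ∏ j, σP j * σP' j ≤ ∏ _j : Fin P, (S.mx x p * (M * M)) :=
              Finset.prod_le_prod' fun j _ => by rw [← hiv]; exact q7 j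
          _ = _ := by rw [Finset.prod_const, Finset.card_univ, Fintype.card_fin]
      rw [mul_comm (S.mx x p ^ _) (S.v p _)]
      refine key.trans ?_
      calc S.mx x p ^ (n + 1) * ((M * M) ^ w * ((∏ j, σP j * σP' j) * (S.mx x p * M) ^ t) *
            (S.mx x p * M)) * M ^ c
          ≤ S.mx x p ^ (n + 1) * ((M * M) ^ w * ((S.mx x p * (M * M)) ^ P *
              (S.mx x p * M) ^ t) * (S.mx x p * M)) * M ^ c := by
            refine mul_le_mul' (mul_le_mul' le_rfl (mul_le_mul' (mul_le_mul' le_rfl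
              (mul_le_mul' hP le_rfl)) le_rfl)) le_rfl
        _ = M ^ (2 * w + 2 * P + t + 1 + c) * S.mx x p ^ (n + 1 + P + t + 1) := by
            simp only [mul_pow, ← pow_mul, ← pow_two]
            have e1 : M ^ (2 * w + 2 * P + t + 1 + c) =
                M ^ (2 * w) * M ^ (2 * P) * M ^ t * M * M ^ c := by
              rw [pow_add, pow_add, pow_add, pow_add, pow_one]
            have e2 : S.mx x p ^ (n + 1 + P + t + 1) =
              S.mx x p ^ (n + 1) * S.mx x p ^ P * S.mx x p ^ t * S.mx x p := by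
                rw [pow_add, pow_add, pow_add, pow_one, pow_add]
            rw [e1, e2]
            simp only [mul_assoc, mul_left_comm, mul_comm]
        _ ≤ _ := by
            refine mul_le_mul' (pow_le_pow_right' hM ?_) (pow_le_pow_right' hs1 ?_)
            · omega
            · omega
    · rintro (((_ | a) | ((j | j) | j)) | _)
      · change x - (1 * x iv) • ((x iv)⁻¹ • x) ∈ _
        rw [hx1]
        exact Submodule.zero_mem _
      · change WT D x (W a).1 (W a).2 - (1 * x iv) • NW a ∈ _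
        rw [one_mul]
        refine Submodule.span_mono ?_ (hNW a)
        rintro _ rfl
        exact ⟨Sum.inl (Sum.inl (Sum.inl ())), Nat.zero_lt_one, rfl⟩
      · change VT D x (mulT (A j) (lf x j0 (i j))) - (1 * x iv) • NP j ∈ _
        rw [one_mul]
        refine Submodule.span_mono ?_ (q3 j)
        rintro u (rfl | ⟨hr, rfl⟩)
        · exact ⟨Sum.inl (Sum.inl (Sum.inl ())), q1 j, rfl⟩
        · exact ⟨Sum.inl (Sum.inr (Sum.inl (Sum.inr j))), hr, rfl⟩
      · change VT D x (mulT (A j) (lf x j0 (i' j))) - (1 * x iv) • NP' j ∈ _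
        rw [one_mul]
        refine Submodule.span_mono ?_ (q4 j)
        rintro u (rfl | ⟨hr, rfl⟩)
        · exact ⟨Sum.inl (Sum.inl (Sum.inl ())), q2 j, rfl⟩
        · exact ⟨Sum.inl (Sum.inr (Sum.inl (Sum.inl j))), hr, rfl⟩
      · change VT D x (mulT (A2 j) (lf x j0 (i2 j))) - (1 * x iv) • NS j ∈ _
        rw [one_mul]
        refine Submodule.span_mono ?_ (hNS j)
        rintro _ rfl
        exact ⟨Sum.inl (Sum.inl (Sum.inl ())), Nat.zero_lt_one, rfl⟩
      · change VT D x (mulT A0 l0) - (1 * x iv) • N0 ∈ _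
        rw [one_mul]
        refine Submodule.span_mono ?_ hN0
        rintro _ rfl
        exact ⟨Sum.inl (Sum.inl (Sum.inl ())), Nat.zero_lt_one, rfl⟩
    · rintro (((_ | a) | ((j | j) | j)) | _) b
      · exact v_smul_le x hiv0 hle b
      · exact hNW' a b
      · exact q5 j b
      · exact q6 j b
      · exact hNS' j b
      · exact hN0' b
  -- the sum
  have h := glob_sum S x y hS hj0 hpl B hB.fin 1 1 one_ne_zero one_ne_zero (∑ m, d m) 1
    (2 * n + 2) (1 + w + 3 * P + 2 * t + 2 + c) 0 0 hloc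
  push_cast at h ⊢
  linarith

end pair

end Pool.Agent.Lines.H19
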