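import Pool.Agent.Lib.MP_c7af3c_ag.LINES.H19.Bas
import Pool.Agent.Lib.MP_c7af3c_ag.LINES.H26.Hbl
import Pool.Agent.Lib.MP_c7af3c_ag.LINES.H75.Ext

/-!
# MP_c7af3c_ag, project LINES: the height of a line with small variation space (module HTL)
-/

set_option autoImplicit false

namespace Pool.Agent.Lines.H19

open MvPolynomial WithZero Pool.Agent.Gen Pool.Agent.Sharp Pool.Agent.Sharp.H54

section

variable {L : Type} [Field L] {n c : ℕ} {d : Fin c → ℕ} (D : DSys L n c d)
  (x y : Fin (n + 1) → L)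

theorem fin2_cases (a : Fin 2) : a = 0 ∨ a = 1 := by
  fin_cases a
  · exact Or.inl rfl
  · exact Or.inr rfl

theorem fx_eq_PP : H26.fx ![x, y] = PP x y := by
  funext q r
  unfold H26.fx PP
  obtain ⟨q1, q2⟩ := q
  obtain ⟨r1, r2⟩ := r
  rcases fin2_cases q2 with rfl | rfl
  · simp
  · simp

theorem W2_eq_WW (q : Fin (n + 1) × Fin (n + 1)) : H26.W2 D ![x, y] q = WW D x y q.1 q.2 := by
  funext r
  unfold H26.W2 WW pr
  obtain ⟨r1, r2⟩ := r
  rcases fin2_cases r1 with rfl | rfl
  · simp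
  · simp

theorem V2_eq_VV (G : Fin c → MvPolynomial (Fin (n + 1)) L) :
    H26.V2 D ![x, y] G = VV D x y G := by
  funext r
  unfold H26.V2 VV pr
  obtain ⟨r1, r2⟩ := r
  rcases fin2_cases r1 with rfl | rfl
  · simp
  · simp

theorem hL_nonneg (S : PlaceSys L) (hS : S.IsProd) (hxy : LinearIndependent L ![x, y]) :
    0 ≤ hL S x y := by
  obtain ⟨i, j, h⟩ := exists_plu hxy
  have h1 := fs_mono S.w (log_fin (hS.fin _ h)) (log_fin (finite_mxP S x y hS.fin h)) fun p => by
    have h2 := le_mxP S x y p i j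
    have h3 : S.v p (plu x y i j) ≠ 0 := (map_ne_zero _).2 h
    have h4 := mxP_ne_zero S x y h p
    rw [← exp_log h3, ← exp_log h4] at h2
    exact WithZero.exp_le_exp.1 h2
  rw [hS.prod _ h] at h1
  exact h1

theorem tot_nonneg (S : PlaceSys L) (B : S.V → ℕ) : 0 ≤ tot S B :=
  finsum_nonneg fun p => by positivity

/-- indices of the columns of type `H` -/
abbrev HI (n c : ℕ) (d : Fin c → ℕ) : Type :=
  {t : Fin c × (Fin (n + 1) × Fin (n + 1) × Fin (n + 1)) × (Fin (n + 1) →₀ ℕ) //
    t.2.2.degree + 1 = d t.1}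

/-- the monomial of a column of type `H` -/
noncomputable def HA (t : HI n c d) : Fin c → MvPolynomial (Fin (n + 1)) L :=
  one1 t.1.1 (monomial t.1.2.2 1)

/-- the tuple of a column of type `H` -/
noncomputable def HG (t : HI n c d) : Fin c → MvPolynomial (Fin (n + 1)) L :=
  mulT (HA t) (hT x y t.1.2.1.1 t.1.2.1.2.1 t.1.2.1.2.2)

theorem HG_eq (t : HI n c d) : HG x y t =
    one1 t.1.1 (hT x y t.1.2.1.1 t.1.2.1.2.1 t.1.2.1.2.2 * monomial t.1.2.2 1) := by
  funext m
  unfold HG HA mulT one1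
  split_ifs
  · ring
  · ring

theorem HA_adm (t : HI n c d) : Adm (L := L) d (HA t) := by
  classical
  intro m I hI
  unfold HA one1 at hI
  split_ifs at hI with h
  · rw [coeff_monomial] at hI
    split_ifs at hI with h2
    · rw [← h2, h]
      exact t.2
    · exact absurd rfl hI
  · exact absurd (coeff_zero I) hI

theorem HA_CB (v : Valuation L ℤᵐ⁰) (t : HI n c d) (m : Fin c) : Sharp.CB v (HA t m) 1 := by
  classical
  intro I
  unfold HA one1
  split_ifs
  · rw [coeff_monomial]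
    split_ifs
    · rw [map_one]
    · rw [map_zero]; exact zero_le
  · rw [coeff_zero, map_zero]
    exact zero_le

/-- the monomials of helper26 are those of `mon` in another order -/
theorem mon_swap (i j : Fin (n + 1)) (b : Σ m : Fin c, Fin (d m + 1)) :
    ∃ b' : H26.Mi d, mon (L := L) d i j b = H26.mon d L i j b' := by
  classical
  refine ⟨⟨b.1, Fin.rev b.2⟩, ?_⟩
  funext m
  unfold mon H26.mon
  by_cases h : m = b.1
  · subst h
    have e2 : (b.2.rev : ℕ) = d b.1 - b.2 := by
      rw [Fin.val_rev]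
      omega
    have e3 : d b.1 - (d b.1 - (b.2 : ℕ)) = b.2 := by
      have := b.2.2
      omega
    rw [if_pos rfl, Pi.single_eq_same]
    simp only [e2, e3]
  · rw [if_neg h, Pi.single_eq_of_ne h]

/-- Module HTL, general form. -/
theorem htlr [CharZero L] (hxy : LinearIndependent L ![x, y]) (q : ℕ)
    (hq : Module.finrank L (SL D x y) = 4 + q) (M : ℕ) (hM : ∀ m, d m ≤ M)
    (h1 : c + ∑ m, d m + q ≤ 2 * n + 1)
    (h2 : ∀ r, r + 2 * n = c + ∑ m, d m + q + 2 →
      n + 2 + q + r * M ≤ ∑ m, d m * (d m + 1) / 2)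
    (S : PlaceSys L) (hS : S.IsProd) (B : S.V → ℕ) (hB : BD S D B) :
    hL S x y ≤ (4 * n + 2) * tot S B := by
  classical
  obtain ⟨i0, j0, h00⟩ := exists_plu hxy
  -- the columns `W`
  obtain ⟨w, W, hW, hW'⟩ := H75.ext_fam (PP x y) (PP_li hxy)
    (fun q : Fin (n + 1) × Fin (n + 1) => WW D x y q.1 q.2)
  -- the columns `H`
  obtain ⟨κ, H, hH, hH'⟩ := H75.ext_fam _ hW (fun t : HI n c d => VV D x y (HG x y t))
  -- the monomials
  obtain ⟨t, φ, hφ, hφ'⟩ := H75.ext_fam _ hH
    (fun b : H26.Mi d => VV D x y (H26.mon d L i0 j0 b))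
  set f1 := Sum.elim (PP x y) ((fun q : Fin (n + 1) × Fin (n + 1) => WW D x y q.1 q.2) ∘ W)
    with hf1
  set f2 := Sum.elim f1 ((fun t : HI n c d => VV D x y (HG x y t)) ∘ H) with hf2
  have hr12 : Set.range f1 ⊆ Set.range f2 := by
    rintro _ ⟨a, rfl⟩
    exact ⟨Sum.inl a, rfl⟩
  have hPPf2 : Set.range (PP x y) ⊆ Set.range f2 := by
    rintro _ ⟨a, rfl⟩
    exact ⟨Sum.inl (Sum.inl a), rfl⟩
  -- the span of the first columns
  have hsp : Submodule.span L (Set.range f2) = SL D x y := by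
    apply le_antisymm
    · rw [Submodule.span_le]
      rintro _ ⟨(a | a) | a, rfl⟩
      · exact Submodule.subset_span (Or.inl (Or.inl ⟨a, rfl⟩))
      · exact Submodule.subset_span (Or.inl (Or.inr ⟨(W a).1, (W a).2, rfl⟩))
      · rw [SL_eq D x y hxy]
        refine Submodule.subset_span (Or.inr ⟨⟨LC.H (H a).1.1 (H a).1.2.1.1 (H a).1.2.1.2.1
          (H a).1.2.1.2.2 (H a).1.2.2, (H a).2⟩, ?_⟩)
        change VV D x y _ = VV D x y (HG x y (H a))
        rw [HG_eq]
    · rw [SL_eq D x y hxy, Submodule.span_le]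
      rintro _ (⟨a, rfl⟩ | ⟨⟨l, hl⟩, rfl⟩)
      · exact Submodule.subset_span (hPPf2 ⟨a, rfl⟩)
      · cases l with
        | W p q => exact Submodule.span_mono hr12 (hW' (p, q))
        | H m i j k I =>
          have h3 := hH' ⟨(m, (i, j, k), I), hl⟩
          rw [HG_eq] at h3
          exact h3
  have hc4 : Fintype.card (Fin 2 × Fin 2) = 4 := by simp
  have hwk : w + κ = q := by
    have h3 := finrank_span_eq_card hH
    rw [hsp, hq, Fintype.card_sum, Fintype.card_sum, hc4, Fintype.card_fin, Fintype.card_fin] at h3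
    omega
  have htop : Submodule.span L (Set.range (Sum.elim f2
      ((fun b : H26.Mi d => VV D x y (H26.mon d L i0 j0 b)) ∘ φ))) = ⊤ := by
    rw [eq_top_iff, ← lsur L n c d D x y hxy i0 j0 h00]
    refine sup_le ?_ ?_
    · rw [← hsp]
      refine Submodule.span_mono ?_
      rintro _ ⟨a, rfl⟩
      exact ⟨Sum.inl a, rfl⟩
    · rw [Submodule.span_le]
      rintro _ ⟨b, rfl⟩
      obtain ⟨b', hb'⟩ := mon_swap (L := L) i0 j0 b
      simp only [hb']
      exact hφ' b'
  have ht : 4 + w + κ + t = 2 * (n + 1) := by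
    have h3 := finrank_span_eq_card hφ
    rw [htop, finrank_top, Module.finrank_pi, Fintype.card_sum, Fintype.card_sum,
      Fintype.card_sum, hc4, Fintype.card_fin, Fintype.card_fin, Fintype.card_fin,
      Fintype.card_prod, Fintype.card_fin, Fintype.card_fin] at h3
    omega
  have hφinj : Function.Injective φ := by
    have h3 := hφ.injective
    intro a b hab
    have h4 : Sum.elim f2 ((fun b : H26.Mi d => VV D x y (H26.mon d L i0 j0 b)) ∘ φ)
        (Sum.inr a) = Sum.elim f2
        ((fun b : H26.Mi d => VV D x y (H26.mon d L i0 j0 b)) ∘ φ) (Sum.inr b) := by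
      simp only [Sum.elim_inr, Function.comp_apply, hab]
    exact Sum.inr_injective (h3 h4)
  set S0 : Set (H26.Mi d) := Set.range φ with hS0
  have hcard : S0.ncard = t := by
    rw [hS0, ← Set.image_univ, Set.ncard_image_of_injective _ hφinj, Set.ncard_univ,
      Nat.card_eq_fintype_card, Fintype.card_fin]
  have hMi : S0.ncard ≤ c + ∑ m, d m := by
    have h3 : S0.ncard ≤ Nat.card (H26.Mi d) := by
      rw [← Set.ncard_univ]
      exact Set.ncard_le_ncard (Set.subset_univ _) (Set.toFinite _)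
    rw [Nat.card_eq_fintype_card, Fintype.card_sigma] at h3
    simp only [Fintype.card_fin, Finset.sum_add_distrib, Finset.sum_const, Finset.card_univ,
      smul_eq_mul, mul_one] at h3
    omega
  -- the independent family in the form of helper26
  set A : Fin κ → Fin c → MvPolynomial (Fin (n + 1)) L := fun k => HA (H k) with hA
  set hh : Fin κ → Fin (n + 1) × Fin (n + 1) × Fin (n + 1) := fun k => (H k).1.2.1 with hhh
  have hcol : H26.colB D ![x, y] W (fun k => mulT (A k)
      (hT (![x, y] 0) (![x, y] 1) (hh k).1 (hh k).2.1 (hh k).2.2)) =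
      f2 ∘ (Equiv.sumAssoc (Fin 2 × Fin 2) (Fin w) (Fin κ)).symm := by
    funext a
    rcases a with a | a | a
    · change H26.fx ![x, y] a = PP x y a
      rw [fx_eq_PP]
    · exact W2_eq_WW D x y (W a)
    · exact V2_eq_VV D x y _
  have hli : LinearIndependent L (Sum.elim
      (H26.colB D ![x, y] W fun k => mulT (A k)
        (hT (![x, y] 0) (![x, y] 1) (hh k).1 (hh k).2.1 (hh k).2.2))
      fun q : S0 => H26.V2 D ![x, y] (H26.mon d L i0 j0 q.1)) := by
    have e1 : Sum.elim
        (H26.colB D ![x, y] W fun k => mulT (A k)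
          (hT (![x, y] 0) (![x, y] 1) (hh k).1 (hh k).2.1 (hh k).2.2))
        (fun q : S0 => H26.V2 D ![x, y] (H26.mon d L i0 j0 q.1)) =
        Sum.elim f2 ((fun b : H26.Mi d => VV D x y (H26.mon d L i0 j0 b)) ∘ φ) ∘
          Sum.map (Equiv.sumAssoc (Fin 2 × Fin 2) (Fin w) (Fin κ)).symm
            (Equiv.ofInjective φ hφinj).symm := by
      funext a
      rcases a with a | a
      · rw [hcol]
        rfl
      · simp only [Sum.elim_inr, Function.comp_apply, Sum.map_inr]
        rw [V2_eq_VV, Equiv.apply_ofInjective_symm hφinj]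
    rw [e1]
    refine hφ.comp _ ?_
    exact Function.Injective.sumMap (Equiv.injective _) (Equiv.injective _)
  have key := H26.hbl D ![x, y] (i0 := i0) (j0 := j0) (by simpa using h00) S hS B hB W A
    (fun k => HA_adm (H k)) (fun p k m => HA_CB (S.v p) (H k) m) hh S0 hli
    (c + ∑ m, d m - S0.ncard) (by omega) (by rw [hcard]; exact ht) (by
      intro G hG h0
      rw [V2_eq_VV, hcol]
      have h3 : Set.range (f2 ∘ (Equiv.sumAssoc (Fin 2 × Fin 2) (Fin w) (Fin κ)).symm) =
          Set.range f2 := (Equiv.surjective _).range_comp f2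
      rw [h3, hsp]
      exact Submodule.subset_span (Or.inr ⟨G, hG, h0, rfl⟩)) M hM
  have e0 : hL S (![x, y] 0) (![x, y] 1) = hL S x y := rfl
  rw [e0] at key
  have hnn := hL_nonneg x y S hS hxy
  have htn := tot_nonneg S B
  have h2' := h2 (c + ∑ m, d m - S0.ncard) (by omega)
  have k1 : (n + 1 + κ + (c + ∑ m, d m - S0.ncard) * M : ℕ) + 1 ≤
      ∑ m, d m * (d m + 1) / 2 := by omega
  have k2 : (2 * w + κ + (c + ∑ m, d m) : ℕ) ≤ 4 * n + 2 := by omega
  have k3 : ((n + 1 + κ + (c + ∑ m, d m - S0.ncard) * M : ℕ) : ℤ) + 1 ≤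
      ((∑ m, d m * (d m + 1) / 2 : ℕ) : ℤ) := by exact_mod_cast k1
  have k4 : ((2 * w + κ + (c + ∑ m, d m) : ℕ) : ℤ) ≤ 4 * n + 2 := by exact_mod_cast k2
  have k5 := mul_le_mul_of_nonneg_right k3 hnn
  have k6 := mul_le_mul_of_nonneg_right k4 htn
  linarith

/-- Module HTL. -/
theorem htl [CharZero L] (hxy : LinearIndependent L ![x, y]) (q : ℕ)
    (hq : Module.finrank L (SL D x y) = 4 + q) (M : ℕ) (hM : ∀ m, d m ≤ M)
    (h1 : c + ∑ m, d m + q ≤ 2 * n + 1)
    (h2 : n + 2 + q + 3 * M ≤ ∑ m, d m * (d m + 1) / 2)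
    (S : PlaceSys L) (hS : S.IsProd) (B : S.V → ℕ) (hB : BD S D B) :
    hL S x y ≤ (4 * n + 2) * tot S B := by
  refine htlr D x y hxy q hq M hM h1 (fun r hr => ?_) S hS B hB
  have hr3 : r ≤ 3 := by omega
  have hrM : r * M ≤ 3 * M := Nat.mul_le_mul_right _ hr3
  omega

end

end Pool.Agent.Lines.H19
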