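import Pool.Agent.Lib.MP_c7af3c_ag.LINES.H19.Htx
import Pool.Agent.Lib.MP_c7af3c_ag.LINES.H19.Badl2

/-!
# MP_c7af3c_ag, project LINES: the height inequalities, condition n - c >= 2 e + 1
-/

set_option autoImplicit false

namespace Pool.Agent.Lines.H19

open MvPolynomial WithZero Pool.Agent.Gen Pool.Agent.Sharp Pool.Agent.Sharp.H54
open Pool.Agent.GenY.H46 Pool.Agent.Sharp.H46

/-- Module NUM, refined. -/
theorem num2 (n c e q : ℕ) (d : Fin c → ℕ) (hd : ∀ m, 1 ≤ d m) (hc : 1 ≤ c)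
    (h1 : 2 * n + 1 = c + ∑ m, d m + e) (h2 : 2 * e + 1 + c ≤ n) (hq : q + 1 ≤ e) :
    ∃ M : ℕ, (∀ m, d m ≤ M) ∧ ∀ r, r + 2 * n = c + ∑ m, d m + q + 2 →
      n + 2 + q + r * M ≤ ∑ m, d m * (d m + 1) / 2 := by
  classical
  have : Nonempty (Fin c) := ⟨⟨0, hc⟩⟩
  obtain ⟨m0, -, hm0⟩ := Finset.exists_max_image (Finset.univ : Finset (Fin c)) d
    Finset.univ_nonempty
  refine ⟨d m0, fun m => hm0 m (Finset.mem_univ m), fun r hr => ?_⟩
  have key : ∀ a : ℕ, 1 ≤ a → 2 * a ≤ a * (a + 1) / 2 + 1 := by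
    intro a ha
    have e1 : 4 * a ≤ a * (a + 1) + 2 := by
      obtain ⟨b, rfl⟩ := Nat.exists_eq_add_of_le ha
      nlinarith [Nat.le_self_pow (two_ne_zero) b]
    omega
  have key4 : ∀ a : ℕ, 4 * a ≤ a * (a + 1) / 2 + 6 := by
    intro a
    have e1 : 8 * a ≤ a * (a + 1) + 12 := by
      rcases Nat.lt_or_ge a 4 with h | h
      · interval_cases a <;> norm_num
      · obtain ⟨b, rfl⟩ := Nat.exists_eq_add_of_le h
        nlinarith [Nat.le_self_pow (two_ne_zero) b]
    omega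
  have key3 : ∀ a : ℕ, 3 * a ≤ a * (a + 1) / 2 + 3 := by
    intro a
    have e1 : 6 * a ≤ a * (a + 1) + 6 := by
      rcases Nat.lt_or_ge a 3 with h | h
      · interval_cases a <;> norm_num
      · obtain ⟨b, rfl⟩ := Nat.exists_eq_add_of_le h
        nlinarith [Nat.le_self_pow (two_ne_zero) b]
    omega
  have e1 : ∑ m, d m = d m0 + ∑ m ∈ Finset.univ.erase m0, d m :=
    (Finset.add_sum_erase _ _ (Finset.mem_univ m0)).symm
  have e2 : ∑ m, d m * (d m + 1) / 2 = d m0 * (d m0 + 1) / 2 +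
      ∑ m ∈ Finset.univ.erase m0, d m * (d m + 1) / 2 :=
    (Finset.add_sum_erase _ _ (Finset.mem_univ m0)).symm
  have e3 : ∑ m ∈ Finset.univ.erase m0, 2 * d m ≤
      ∑ m ∈ Finset.univ.erase m0, (d m * (d m + 1) / 2 + 1) :=
    Finset.sum_le_sum fun m _ => key _ (hd m)
  rw [Finset.sum_add_distrib, Finset.sum_const, Finset.card_erase_of_mem (Finset.mem_univ _),
    Finset.card_univ, Fintype.card_fin, ← Finset.mul_sum] at e3
  simp only [smul_eq_mul, mul_one] at e3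
  have hr2 : r ≤ 2 := by omega
  have e4 := key4 (d m0)
  have e5 := key3 (d m0)
  have e6 := key (d m0) (hd m0)
  interval_cases r <;> omega

section

variable {L : Type} [Field L] {n c : ℕ} {d : Fin c → ℕ} (D : DSys L n c d)

/-- Module HTX, refined. -/
theorem htx2 [CharZero L] (hcomm : Comm D) (x : Fin (n + 1) → L)
    (j0 : Fin (n + 1)) (hj0 : x j0 = 1) (h0 : ∀ m, eval x (D.F m) = 0) (hd : ∀ m, 1 ≤ d m)
    (e : ℕ) (h1 : 2 * n + 1 ≤ c + ∑ m, d m + e) (h2 : 2 * e + 1 + c ≤ n)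
    (hno : ∀ y, LinearIndependent L ![x, y] → ∃ m, lineP (D.F m) x y ≠ 0)
    (S : PlaceSys L) (hS : S.IsProd) (B : S.V → ℕ) (hB : BD S D B) :
    S.ht x ≤ ((∑ m, d m : ℕ) + 1) * (4 * n + 2) * tot S B + tot S B := by
  have hx : x ≠ 0 := fun h => one_ne_zero (by rw [← hj0, h]; rfl)
  have htn := tot_nonneg S B
  have hbig : (2 * n + 2 : ℤ) * tot S B ≤
      ((∑ m, d m : ℕ) + 1) * (4 * n + 2) * tot S B + tot S B := by
    have k1 : (2 * n + 2 : ℤ) ≤ ((∑ m, d m : ℕ) + 1) * (4 * n + 2) + 1 := by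
      have : (0 : ℤ) ≤ ((∑ m, d m : ℕ) : ℤ) := by positivity
      have : (0 : ℤ) ≤ (n : ℤ) := by positivity
      have h4 : (1 : ℤ) ≤ n := by
        have : 1 ≤ n := by omega
        exact_mod_cast this
      nlinarith
    have := mul_le_mul_of_nonneg_right k1 htn
    linarith
  -- a line of bounded height
  have hline : ∀ y, LinearIndependent L ![x, y] → hL S x y ≤ (4 * n + 2) * tot S B →
      S.ht x ≤ ((∑ m, d m : ℕ) + 1) * (4 * n + 2) * tot S B + tot S B := by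
    intro y hxy hL1
    obtain ⟨m, hm⟩ := hno y hxy
    have hroot := root S hS D B hB hxy hj0 m (h0 m) hm
    have hdm : ((d m : ℕ) : ℤ) ≤ ((∑ m, d m : ℕ) : ℤ) := by
      exact_mod_cast Finset.single_le_sum (f := d) (fun _ _ => Nat.zero_le _)
        (Finset.mem_univ m)
    have hnn := hL_nonneg x y S hS hxy
    have k2 : ((d m : ℤ) + 1) * hL S x y ≤
        (((∑ m, d m : ℕ) : ℤ) + 1) * ((4 * n + 2) * tot S B) := by
      calc ((d m : ℤ) + 1) * hL S x y ≤ (((∑ m, d m : ℕ) : ℤ) + 1) * hL S x y :=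
            mul_le_mul_of_nonneg_right (by linarith) hnn
        _ ≤ _ := mul_le_mul_of_nonneg_left hL1 (by positivity)
    refine hroot.trans ?_
    rw [mul_assoc]
    linarith
  set e' := 2 * n + 1 - (c + ∑ m, d m) with he'
  rcases badl2 (D := D) hj0 h0 e' (by omega) (by omega) S hS B hB with
    h | ⟨y, hxy, hLy⟩ | ⟨he1, y, hxy, -, hE⟩
  · exact h.trans hbig
  · refine hline y hxy (hLy.trans (mul_le_mul_of_nonneg_right ?_ htn))
    have : (0 : ℤ) ≤ (n : ℤ) := by positivity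
    linarith
  · have hSL := H75.lvar L n c d D hcomm x y hxy h0 (e' - 1) (by omega) (by omega)
    have h4 := four L n c d D x y hxy
    obtain ⟨q, hq⟩ := Nat.exists_eq_add_of_le h4
    have hc1 : 1 ≤ c := by
      by_contra hc0
      have hc0' : c = 0 := by omega
      subst hc0'
      simp at he'
      omega
    obtain ⟨M, hM, hnum⟩ := num2 n c e' q d hd hc1 (by omega) (by omega) (by omega)
    exact hline y hxy (htlr D x y hxy q hq M hM (by omega) hnum S hS B hB)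

/-- Module HTLX, refined. -/
theorem htlx2 [CharZero L] (x y : Fin (n + 1) → L) (hxy : LinearIndependent L ![x, y])
    (h0 : OnLine x y D.F) (hd : ∀ m, 1 ≤ d m) (e : ℕ) (h1 : 2 * n + 1 ≤ c + ∑ m, d m + e)
    (h2 : 2 * e + 1 + c ≤ n)
    (S : PlaceSys L) (hS : S.IsProd) (B : S.V → ℕ) (hB : BD S D B) :
    hL S x y ≤ (4 * n + 2) * tot S B := by
  have hSL := H54.lvarx L n c d D x y hxy h0
  have h4 := four L n c d D x y hxy
  obtain ⟨q, hq⟩ := Nat.exists_eq_add_of_le h4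
  have hc1 : 1 ≤ c := by
    by_contra hc0
    have hc0' : c = 0 := by omega
    subst hc0'
    simp at h1
    omega
  obtain ⟨M, hM, hnum⟩ := num2 n c (2 * n + 1 - (c + ∑ m, d m)) q d hd hc1 (by omega)
    (by omega) (by omega)
  exact htlr D x y hxy q hq M hM (by omega) hnum S hS B hB

end

end Pool.Agent.Lines.H19
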