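import Pool.Agent.Lib.MP_c7af3c_ag.LINES.H19.Sys
import Pool.Agent.Lib.MP_c7af3c_ag.SHARP.H54.NoLines
import Pool.Agent.Lib.MP_c7af3c_ag.GEN.H36.Deriv
import Pool.Agent.Lib.MP_c7af3c_ag.METC.H75.Comm

/-!
# MP_c7af3c_ag, project LINES: no lines on very general complete intersections
-/

set_option autoImplicit false

namespace Pool.Agent.Lines.H19

open MvPolynomial Pool.Agent.Gen Pool.Agent.GenY.H46 Pool.Agent.Sharp
open Pool.Agent.Sharp.H46 Pool.Agent.Sharp.H54

/-- restriction to a line and field maps -/
theorem lineP_map {L M : Type} [Field L] [Field M] {n : ℕ} (f : L →+* M)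
    (g : MvPolynomial (Fin (n + 1)) L) (x y : Fin (n + 1) → L) :
    (lineP g x y).map f = lineP (map f g) (fun j => f (x j)) (fun j => f (y j)) := by
  unfold lineP
  induction g using MvPolynomial.induction_on with
  | C a =>
    simp only [map_C, MvPolynomial.algHom_C, Polynomial.algebraMap_apply, Polynomial.map_C]
    rfl
  | add p q hp hq =>
    rw [map_add, Polynomial.map_add, hp, hq, map_add, map_add]
  | mul_X p j hp =>
    rw [map_mul, Polynomial.map_mul, hp, map_mul, map_mul]
    simp only [aeval_X, map_X, Polynomial.map_add, Polynomial.map_mul, Polynomial.map_C,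
      Polynomial.map_X]

theorem map_formOf {L M : Type} [Field L] [Field M] {n c : ℕ} {d : Fin c → ℕ} (f : L →+* M)
    (a : Ix (M := n) d → L) (m : Fin c) : map f (formOf a m) = formOf (fun s => f (a s)) m := by
  rw [eq_formOf (fun m => map f (formOf a m)) (fun m => (formOf_hom a m).map f) m]
  congr 1
  funext s
  rw [coeff_map, coeff_formOf a s.1.1 s.1.2 s.2]

/-- No lines, algebraic independence over a subfield. -/
theorem noLine_aux (k0 k : Type) [Field k0] [CharZero k0] [Field k] [Algebra k0 k]
    (n c : ℕ) (d : Fin c → ℕ) (F : Fin c → MvPolynomial (Fin (n + 1)) k)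
    (hF : ∀ m, (F m).IsHomogeneous (d m))
    (hind0 : AlgebraicIndependent k0 (fun s : Ix (M := n) d => coeff s.1.2 (F s.1.1)))
    (h : 2 * n ≤ c + ∑ m, d m + 1) (x y : Fin (n + 1) → k)
    (hxy : LinearIndependent k ![x, y]) : ∃ m, lineP (F m) x y ≠ 0 := by
  classical
  set a : Ix (M := n) d → k := fun s => coeff s.1.2 (F s.1.1) with ha'
  have hFa : ∀ m, F m = formOf a m := fun m => eq_formOf F hF m
  have hfinIx : Finite (Ix (M := n) d) := inferInstance
  let T : Set k := (Set.range x ∪ Set.range y) ∪ Set.range a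
  have hTf : T.Finite := ((Set.finite_range x).union (Set.finite_range y)).union
    (Set.finite_range a)
  let K : IntermediateField k0 k := IntermediateField.adjoin k0 T
  have hTK : T ⊆ K := IntermediateField.subset_adjoin k0 T
  have hKc : CharZero K := charZero_of_injective_algebraMap (algebraMap k0 K).injective
  have hKfg : (⊤ : IntermediateField k0 K).FG := by
    rw [IntermediateField.fg_top_iff, IntermediateField.essFiniteType_iff]
    exact IntermediateField.fg_adjoin_of_finite hTf
  let b : Ix (M := n) d → K := fun s => ⟨a s, hTK (Or.inr ⟨s, rfl⟩)⟩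
  have hbind : AlgebraicIndependent k0 b := by
    have h1 : a = (K.val : K → k) ∘ b := rfl
    rw [h1] at hind0
    exact hind0.of_comp K.val
  let x' : Fin (n + 1) → K := fun j => ⟨x j, hTK (Or.inl (Or.inl ⟨j, rfl⟩))⟩
  let y' : Fin (n + 1) → K := fun j => ⟨y j, hTK (Or.inl (Or.inr ⟨j, rfl⟩))⟩
  obtain ⟨N, Da, e, he, hTe⟩ := H36.deriv k0 K hKfg (Ix (M := n) d) b hbind
  let D : MetC.DD (Ix (M := n) d) K :=
    { a := b
      del := fun s => (Da.del (e s)).restrictScalars ℤ
      one := by
        intro s
        change Da.del (e s) (b s) = 1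
        rw [← hTe, Da.dual, if_pos rfl]
      zero := by
        intro s t h
        change Da.del (e s) (b t) = 0
        rw [← hTe, Da.dual, if_neg fun h' => h (he h')]
      comm := fun s t f => MetC.dat_comm Da (e s) (e t) f }
  have hxy' : LinearIndependent K ![x', y'] := by
    rw [LinearIndependent.pair_iff] at hxy ⊢
    intro s t hst
    have h1 := hxy (s : k) (t : k) (by
      funext j
      have h2 := congrArg (fun z : K => (z : k)) (congrFun hst j)
      simpa using h2)
    exact ⟨Subtype.ext h1.1, Subtype.ext h1.2⟩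
  obtain ⟨m, hm⟩ := nolines (toDSysC d D) hxy' h
  refine ⟨m, fun h0 => hm ?_⟩
  have h1 : (lineP (formOf b m) x' y').map (algebraMap K k) = 0 := by
    rw [lineP_map, map_formOf]
    rw [hFa m] at h0
    exact h0
  have h2 : lineP (formOf b m) x' y' = 0 :=
    Polynomial.map_injective (algebraMap K k) (algebraMap K k).injective
      (h1.trans (Polynomial.map_zero _).symm)
  exact h2

/-- **No lines.** A complete intersection with algebraically independent coefficients contains no
line if `2 n ≤ c + sum d + 1`. -/
theorem noLine (k : Type) [Field k] [CharZero k]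
    (n c : ℕ) (d : Fin c → ℕ) (F : Fin c → MvPolynomial (Fin (n + 1)) k)
    (hF : ∀ m, (F m).IsHomogeneous (d m))
    (ha : AlgebraicIndependent ℤ (fun s : Ix (M := n) d => coeff s.1.2 (F s.1.1)))
    (h : 2 * n ≤ c + ∑ m, d m + 1) (x y : Fin (n + 1) → k)
    (hxy : LinearIndependent k ![x, y]) : ∃ m, lineP (F m) x y ≠ 0 := by
  have := IsLocalization.isAlgebraic ℚ (nonZeroDivisors ℤ)
  exact noLine_aux ℚ k n c d F hF (ha.extendScalars ℚ) h x y hxy

end Pool.Agent.Lines.H19
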