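import Pool.Agent.Lib.MP_c7af3c_ag.LINES.H19.Lsur

/-!
# MP_c7af3c_ag, project LINES: choice of the columns (module LBAS) and numbers (module NUM)
-/

set_option autoImplicit false

namespace Pool.Agent.Lines.H19

open MvPolynomial Pool.Agent.Gen Pool.Agent.Sharp Pool.Agent.Sharp.H54

/-- extension of a linearly independent family by members of a second family -/
theorem ext_fam {L V : Type} [Field L] [AddCommGroup V] [Module L V] [FiniteDimensional L V]
    {ι κ : Type} [Fintype ι] (f : ι → V) (hf : LinearIndependent L f) (g : κ → V) (t : ℕ)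
    (ht : Fintype.card ι + t ≤ Module.finrank L (Submodule.span L (Set.range f ∪ Set.range g))) :
    ∃ φ : Fin t → κ, LinearIndependent L (Sum.elim f (g ∘ φ)) := by
  classical
  induction t with
  | zero =>
    refine ⟨Fin.elim0, ?_⟩
    rw [Fintype.linearIndependent_iff] at hf ⊢
    intro a ha i
    rw [Fintype.sum_sum_type] at ha
    simp only [Sum.elim_inl, Finset.univ_eq_empty, Finset.sum_empty, add_zero] at ha
    rcases i with i | i
    · exact hf _ ha i
    · exact i.elim0
  | succ t ih =>
    obtain ⟨φ, hφ⟩ := ih (by omega)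
    obtain ⟨k, hk⟩ : ∃ k, g k ∉ Submodule.span L (Set.range (Sum.elim f (g ∘ φ))) := by
      by_contra hc
      push Not at hc
      have h1 : Submodule.span L (Set.range f ∪ Set.range g) ≤
          Submodule.span L (Set.range (Sum.elim f (g ∘ φ))) := by
        rw [Submodule.span_le]
        rintro u (⟨i, rfl⟩ | ⟨k, rfl⟩)
        · exact Submodule.subset_span ⟨Sum.inl i, rfl⟩
        · exact hc k
      have h2 := Submodule.finrank_mono h1
      rw [finrank_span_eq_card hφ, Fintype.card_sum, Fintype.card_fin] at h2
      omega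
    refine ⟨Fin.snoc φ k, ?_⟩
    rw [Fintype.linearIndependent_iff] at hφ ⊢
    intro a ha
    rw [Fintype.sum_sum_type, Fin.sum_univ_castSucc] at ha
    simp only [Sum.elim_inl, Sum.elim_inr, Function.comp_apply, Fin.snoc_castSucc,
      Fin.snoc_last] at ha
    have hlast : a (Sum.inr (Fin.last t)) = 0 := by
      by_contra h0
      apply hk
      have e1 : g k = (a (Sum.inr (Fin.last t)))⁻¹ •
          (-(∑ i, a (Sum.inl i) • f i + ∑ s : Fin t, a (Sum.inr s.castSucc) • g (φ s))) := by
        have e2 : a (Sum.inr (Fin.last t)) • g k =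
            -(∑ i, a (Sum.inl i) • f i + ∑ s : Fin t, a (Sum.inr s.castSucc) • g (φ s)) := by
          rw [eq_neg_iff_add_eq_zero, add_comm, ← ha, add_assoc]
        rw [← e2, smul_smul, inv_mul_cancel₀ h0, one_smul]
      rw [e1]
      refine Submodule.smul_mem _ _ (Submodule.neg_mem _ (Submodule.add_mem _
        (Submodule.sum_mem _ fun i _ => Submodule.smul_mem _ _
          (Submodule.subset_span ⟨Sum.inl i, rfl⟩))
        (Submodule.sum_mem _ fun s _ => Submodule.smul_mem _ _
          (Submodule.subset_span ⟨Sum.inr s, rfl⟩))))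
    rw [hlast, zero_smul, add_zero] at ha
    have h3 := hφ (Sum.elim (fun i => a (Sum.inl i)) fun s => a (Sum.inr s.castSucc)) (by
      rw [Fintype.sum_sum_type]
      simpa only [Sum.elim_inl, Sum.elim_inr, Function.comp_apply] using ha)
    rintro (i | s)
    · exact h3 (Sum.inl i)
    · refine Fin.lastCases hlast (fun s => ?_) s
      exact h3 (Sum.inr s)

section

variable {L : Type} [Field L] {n c : ℕ} {d : Fin c → ℕ} (D : DSys L n c d)
  (x y : Fin (n + 1) → L)

theorem sum_one1 (G : Fin c → MvPolynomial (Fin (n + 1)) L) : G = ∑ m, one1 m (G m) := by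
  classical
  funext m
  rw [Finset.sum_apply]
  unfold one1
  simp

/-- the columns `LC` -/
noncomputable def gLC : {l : LC n c // l.Ok d} → (Fin 2 × Fin (n + 1) → L) :=
  fun l => l.1.val D x y

theorem VV_span [CharZero L] (hxy : LinearIndependent L ![x, y])
    {G : Fin c → MvPolynomial (Fin (n + 1)) L} (hG : Hom d G) (h0 : OnLine x y G) :
    VV D x y G ∈ Submodule.span L (Set.range (gLC D x y)) := by
  rw [← VVl_apply, sum_one1 G, map_sum]
  refine Submodule.sum_mem _ fun m _ => ?_
  have h1 := lidl L n (d m) x y hxy (G m) (hG m) (h0 m)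
  have h2 : ∀ P ∈ Submodule.span L {P | ∃ i j k, ∃ I : Fin (n + 1) →₀ ℕ, I.degree + 1 = d m ∧
      P = hT x y i j k * monomial I 1}, VVl D x y (one1 m P) ∈
        Submodule.span L (Set.range (gLC D x y)) := by
    intro P hP
    induction hP using Submodule.span_induction with
    | mem P h =>
      obtain ⟨i, j, k, I, hI, rfl⟩ := h
      exact Submodule.subset_span ⟨⟨LC.H m i j k I, hI⟩, rfl⟩
    | zero =>
      have : (one1 m 0 : Fin c → MvPolynomial (Fin (n + 1)) L) = 0 := by
        funext m'
        unfold one1
        split_ifs <;> rfl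
      rw [this, map_zero]
      exact Submodule.zero_mem _
    | add P Q _ _ hP hQ =>
      have : (one1 m (P + Q) : Fin c → MvPolynomial (Fin (n + 1)) L) = one1 m P + one1 m Q := by
        funext m'
        rw [Pi.add_apply]
        unfold one1
        split_ifs
        · rfl
        · rw [add_zero]
      rw [this, map_add]
      exact Submodule.add_mem _ hP hQ
    | smul a P _ hP =>
      have : (one1 m (a • P) : Fin c → MvPolynomial (Fin (n + 1)) L) = a • one1 m P := by
        funext m'
        rw [Pi.smul_apply]
        unfold one1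
        split_ifs
        · rfl
        · rw [smul_zero]
      rw [this, map_smul]
      exact Submodule.smul_mem _ _ hP
  exact h2 _ h1

theorem SL_eq [CharZero L] (hxy : LinearIndependent L ![x, y]) :
    SL D x y = Submodule.span L (Set.range (PP x y) ∪ Set.range (gLC D x y)) := by
  apply le_antisymm
  · unfold SL
    rw [Submodule.span_le]
    rintro u ((hu | ⟨p, q, rfl⟩) | ⟨G, hG, h0, rfl⟩)
    · exact Submodule.subset_span (Or.inl hu)
    · exact Submodule.subset_span (Or.inr ⟨⟨LC.W p q, trivial⟩, rfl⟩)
    · exact Submodule.span_mono Set.subset_union_right (VV_span D x y hxy hG h0)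
  · rw [Submodule.span_le]
    rintro u (hu | ⟨⟨l, hl⟩, rfl⟩)
    · exact Submodule.subset_span (Or.inl (Or.inl hu))
    · cases l with
      | W p q => exact Submodule.subset_span (Or.inl (Or.inr ⟨p, q, rfl⟩))
      | H m i j k I =>
        refine Submodule.subset_span (Or.inr ⟨_, fun m' => ?_, fun m' => ?_, rfl⟩)
        · unfold one1
          split_ifs with h
          · subst h
            have h1 := (hom_hT x y i j k).mul (isHomogeneous_monomial (1 : L)
              (show I.degree = I.degree from rfl))
            have h2 : 1 + I.degree = d m' := by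
              have : I.degree + 1 = d m' := hl
              omega
            rwa [h2] at h1
          · exact isHomogeneous_zero _ _ _
        · unfold one1
          split_ifs with h
          · rw [lineP_mul]
            have : lineP (hT x y i j k) x y = 0 := by
              unfold hT plu
              simp only [lineP, map_add, map_sub, map_mul, aeval_X, algHom_C,
                Polynomial.algebraMap_apply, Algebra.algebraMap_self, RingHom.id_apply]
              ring
            rw [this, zero_mul]
          · exact map_zero _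

/-- Module LBAS: the choice of the columns -/
theorem bas [CharZero L] (hxy : LinearIndependent L ![x, y]) {i0 j0 : Fin (n + 1)}
    (h : plu x y i0 j0 ≠ 0) {q : ℕ} (hq : Module.finrank L (SL D x y) = 4 + q) :
    ∃ (C : Fin q → LC n c) (t : ℕ) (φ : Fin t → Σ m : Fin c, Fin (d m + 1)),
      (∀ s, (C s).Ok d) ∧ t + 4 + q = 2 * n + 2 ∧
      Submodule.span L (Set.range (PP x y) ∪ Set.range fun s => (C s).val D x y) = SL D x y ∧
      LinearIndependent L (Sum.elim (Sum.elim (PP x y) fun s => (C s).val D x y)
        fun s => VV D x y (mon d i0 j0 (φ s))) := by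
  classical
  have hc4 : Fintype.card (Fin 2 × Fin 2) = 4 := by simp
  obtain ⟨ψ, hψ⟩ := ext_fam (PP x y) (PP_li hxy) (gLC D x y) q (by
    rw [← SL_eq D x y hxy, hq, hc4])
  have hC : gLC D x y ∘ ψ = fun s => (ψ s).1.val D x y := rfl
  rw [hC] at hψ
  have hsp : Submodule.span L (Set.range (PP x y) ∪ Set.range fun s => (ψ s).1.val D x y) =
      SL D x y := by
    have h1 : Set.range (PP x y) ∪ (Set.range fun s => (ψ s).1.val D x y) =
        Set.range (Sum.elim (PP x y) fun s => (ψ s).1.val D x y) := by
      rw [Set.Sum.elim_range]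
    apply Submodule.eq_of_le_of_finrank_eq
    · rw [SL_eq D x y hxy, Submodule.span_le]
      rintro u (hu | ⟨s, rfl⟩)
      · exact Submodule.subset_span (Or.inl hu)
      · exact Submodule.subset_span (Or.inr ⟨ψ s, rfl⟩)
    · rw [hq, h1, finrank_span_eq_card hψ, Fintype.card_sum, hc4, Fintype.card_fin]
  have hq2 : 4 + q ≤ 2 * n + 2 := by
    rw [← hq]
    refine (Submodule.finrank_le _).trans ?_
    rw [Module.finrank_pi, Fintype.card_prod, Fintype.card_fin, Fintype.card_fin]
    omega
  obtain ⟨φ, hφ⟩ := ext_fam (Sum.elim (PP x y) fun s => (ψ s).1.val D x y) hψ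
    (fun b => VV D x y (mon d i0 j0 b)) (2 * n + 2 - (4 + q)) (by
      have h2 : Submodule.span L (Set.range (Sum.elim (PP x y) fun s => (ψ s).1.val D x y) ∪
          Set.range fun b => VV D x y (mon d i0 j0 b)) = ⊤ := by
        rw [Set.Sum.elim_range, Submodule.span_union, hsp]
        exact lsur L n c d D x y hxy i0 j0 h
      rw [h2, finrank_top, Module.finrank_pi, Fintype.card_sum, hc4, Fintype.card_fin,
        Fintype.card_prod, Fintype.card_fin, Fintype.card_fin]
      omega)
  refine ⟨fun s => (ψ s).1, 2 * n + 2 - (4 + q), φ, fun s => (ψ s).2, by omega, hsp, hφ⟩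

end

/-- Module NUM. -/
theorem num : NumStatement := by
  intro n c e q d hd hc h1 h2 h3 hq h4
  classical
  haveI : Nonempty (Fin c) := ⟨⟨0, hc⟩⟩
  obtain ⟨m0, -, hm0⟩ := Finset.exists_max_image (Finset.univ : Finset (Fin c)) d
    Finset.univ_nonempty
  refine ⟨d m0, fun m => hm0 m (Finset.mem_univ m), ?_⟩
  have key : ∀ a : ℕ, 1 ≤ a → 2 * a ≤ a * (a + 1) / 2 + 1 := by
    intro a ha
    have e1 : 4 * a ≤ a * (a + 1) + 2 := by
      obtain ⟨b, rfl⟩ := Nat.exists_eq_add_of_le ha
      nlinarith [Nat.le_self_pow (two_ne_zero) b]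
    omega
  have key2 : ∀ a : ℕ, 5 * a ≤ a * (a + 1) / 2 + 10 := by
    intro a
    have e1 : 10 * a ≤ a * (a + 1) + 20 := by
      rcases Nat.lt_or_ge a 5 with h | h
      · interval_cases a <;> norm_num
      · obtain ⟨b, rfl⟩ := Nat.exists_eq_add_of_le h
        nlinarith [Nat.le_self_pow (two_ne_zero) b]
    omega
  have e1 : ∑ m, d m = d m0 + ∑ m ∈ Finset.univ.erase m0, d m :=
    (Finset.add_sum_erase _ _ (Finset.mem_univ m0)).symm
  have e2 : ∑ m, d m * (d m + 1) / 2 = d m0 * (d m0 + 1) / 2 +
      ∑ m ∈ Finset.univ.erase m0, d m * (d m + 1) / 2 :=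
    (Finset.add_sum_erase _ _ (Finset.mem_univ m0)).symm
  have e3 : ∑ m ∈ Finset.univ.erase m0, 2 * d m ≤
      ∑ m ∈ Finset.univ.erase m0, (d m * (d m + 1) / 2 + 1) :=
    Finset.sum_le_sum fun m _ => key _ (hd m)
  rw [Finset.sum_add_distrib, Finset.sum_const, Finset.card_erase_of_mem (Finset.mem_univ _),
    Finset.card_univ, Fintype.card_fin, ← Finset.mul_sum] at e3
  have e4 := key2 (d m0)
  simp only [smul_eq_mul, mul_one] at e3
  omega

end Pool.Agent.Lines.H19
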