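import Pool.Agent.Lib.MP_c7af3c_ag.LINES.H19.HbLines

/-!
# MP_c7af3c_ag, project LINES: finitely many lines and finitely many points outside them
-/

set_option autoImplicit false

namespace Pool.Agent.Lines.H19

open MvPolynomial WithZero Pool.Agent.Gen Pool.Agent.Sharp Pool.Agent.Sharp.H54
open Pool.Agent.GenY.H46 Pool.Agent.Sharp.H46

/-- the points of a line on which a form vanishes -/
theorem fin_on_line {L : Type} [Field L] {n : ℕ} {u v : Fin (n + 1) → L}
    {g : MvPolynomial (Fin (n + 1)) L} {e : ℕ} (hg : g.IsHomogeneous e)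
    (h : lineP g u v ≠ 0) (j0 : Fin (n + 1)) :
    {x : Fin (n + 1) → L | x j0 = 1 ∧ eval x g = 0 ∧
      ∃ s t : L, x = fun k => s * u k + t * v k}.Finite := by
  classical
  set T : Set (Fin (n + 1) → L) :=
    (fun (τ : L) (k : Fin (n + 1)) => (u k + τ * v k) / (u j0 + τ * v j0)) ''
      {τ | (lineP g u v).IsRoot τ} ∪ {fun k => v k / v j0} with hT
  refine Set.Finite.subset (s := T) ?_ ?_
  · exact ((Polynomial.finite_setOfPred_isRoot h).image _).union (Set.finite_singleton _)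
  · rintro x ⟨hx1, hx2, s, t, rfl⟩
    simp only at hx1
    by_cases hs : s = 0
    · right
      rw [Set.mem_singleton_iff]
      subst hs
      funext k
      rw [zero_mul, zero_add] at hx1
      have ht : t ≠ 0 := fun h0 => by rw [h0, zero_mul] at hx1; exact zero_ne_one hx1
      have hv : v j0 ≠ 0 := fun h0 => by rw [h0, mul_zero] at hx1; exact zero_ne_one hx1
      rw [eq_div_iff hv]
      linear_combination (v k) * hx1
    · left
      refine ⟨t / s, ?_, ?_⟩
      · rw [Set.mem_ofPred_eq, Polynomial.IsRoot.def, lineP_eval]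
        have e1 : (fun k => s * u k + t * v k) = fun k => s * (u k + t / s * v k) := by
          funext k
          field_simp
        rw [e1, eval_smul_form hg] at hx2
        exact (mul_eq_zero.1 hx2).resolve_left (pow_ne_zero _ hs)
      · have e2 : u j0 + t / s * v j0 = 1 / s := by
          rw [eq_div_iff hs, ← hx1]
          field_simp
        funext k
        simp only
        rw [e2]
        field_simp

section

variable {n c : ℕ} (d : Fin c → ℕ) (k : Type) [Field k] [IsAlgClosed k] [CharZero k]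

/-- finitely many lines (with frame at `i0, j0`) -/
theorem finLines (a : Ix (M := n) d → k) (ha : AlgebraicIndependent ℤ a)
    (hd : ∀ m, 1 ≤ d m) (e : ℕ) (h1 : 2 * n + 1 ≤ c + ∑ m, d m + e)
    (h2 : 2 * e + 2 + c ≤ n) (h3 : 3 + c ≤ n) (S : Set k) (hS : S.Finite)
    (haS : Set.range a ⊆ S) (i0 j0 : Fin (n + 1)) :
    {z : Fin 2 × Fin (n + 1) → k | (∀ j, z j ∈ IntermediateField.adjoin
      (algebraicClosure ℚ k) S) ∧ MetC.Sol (EL d i0 j0) (Int.castRingHom k) a z}.Finite := by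
  have h := MetX.thmlAll k (Ix (M := n) d) (Fin 2 × Fin (n + 1)) Unit (EL d i0 j0) {1}
    (Set.finite_singleton _) a ha (by
      obtain ⟨A, hA⟩ := hbLine d hd e h1 h2 h3 i0 j0
      exact ⟨A, fun L _ _ φ D hD z hz _ S hS hφ M hM j =>
        hA L φ D hD z hz S hS hφ M hM j⟩) S hS haS
  refine h.subset ?_
  rintro z ⟨hz1, hz2⟩
  refine ⟨hz1, hz2, fun y _ hy => ?_⟩
  have := hy 1 rfl
  rw [eval₂_one] at this
  exact one_ne_zero this

/-- finitely many points which are not on lines inside -/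
theorem finPts (hBad : BadlStatement) (a : Ix (M := n) d → k) (ha : AlgebraicIndependent ℤ a)
    (hd : ∀ m, 1 ≤ d m) (e : ℕ) (h1 : 2 * n + 1 ≤ c + ∑ m, d m + e)
    (h2 : 2 * e + 2 + c ≤ n) (h3 : 3 + c ≤ n) (S : Set k) (hS : S.Finite)
    (haS : Set.range a ⊆ S) (j0 : Fin (n + 1)) :
    {z : Fin (n + 1) → k | (∀ j, z j ∈ IntermediateField.adjoin (algebraicClosure ℚ k) S) ∧
      MetC.Sol (EP d j0) (Int.castRingHom k) a z ∧
      ∀ y : Fin (n + 1) → k, (∀ j, y j ∈ IntermediateField.adjoin (algebraicClosure ℚ k) S) →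
      ¬ MetC.Sol (EX d j0) (Int.castRingHom k) a (Sum.elim z y)}.Finite :=
  MetX.thmlAll k (Ix (M := n) d) (Fin (n + 1)) (Fin (n + 1)) (EP d j0) (EX d j0)
    (finite_EX d j0) a ha (hbPt d hBad hd e h1 h2 h3 j0) S hS haS

/-- the structure of the points over a finitely generated field -/
theorem structure_pts (hBad : BadlStatement) (F : Fin c → MvPolynomial (Fin (n + 1)) k)
    (hF : ∀ m, (F m).IsHomogeneous (d m))
    (ha : AlgebraicIndependent ℤ (fun s : Ix (M := n) d => coeff s.1.2 (F s.1.1)))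
    (hd : ∀ m, 1 ≤ d m) (e : ℕ) (h1 : 2 * n + 1 ≤ c + ∑ m, d m + e)
    (h2 : 2 * e + 2 + c ≤ n) (h3 : 3 + c ≤ n) (S : Set k) (hS : S.Finite) :
    ∃ ℒ : Set ((Fin (n + 1) → k) × (Fin (n + 1) → k)), ℒ.Finite ∧
      (∀ l ∈ ℒ, LinearIndependent k ![l.1, l.2] ∧ ∀ m, lineP (F m) l.1 l.2 = 0) ∧
      ∀ j0 : Fin (n + 1), {x : Fin (n + 1) → k | x j0 = 1 ∧
        (∀ j, x j ∈ Subfield.closure S) ∧ (∀ m, eval x (F m) = 0) ∧
        ∀ l ∈ ℒ, ¬ ∃ s t : k, x = fun p => s * l.1 p + t * l.2 p}.Finite := by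
  classical
  set a : Ix (M := n) d → k := fun s => coeff s.1.2 (F s.1.1) with hadef
  have hFa : ∀ m, F m = formOf a m := fun m => eq_formOf F hF m
  set S' : Set k := S ∪ Set.range a with hS'
  have hS'f : S'.Finite := hS.union (Set.finite_range a)
  have haS' : Set.range a ⊆ S' := Set.subset_union_right
  have hcl : ∀ z ∈ Subfield.closure S,
      z ∈ IntermediateField.adjoin (algebraicClosure ℚ k) S' := by
    intro z hz
    have h4 : Subfield.closure S ≤
        (IntermediateField.adjoin (algebraicClosure ℚ k) S').toSubfield :=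
      Subfield.closure_le.2 fun s hs => IntermediateField.subset_adjoin _ _ (Or.inl hs)
    exact h4 hz
  set 𝒵 : Fin (n + 1) → Fin (n + 1) → Set (Fin 2 × Fin (n + 1) → k) := fun i0 j0 =>
    {z | (∀ j, z j ∈ IntermediateField.adjoin (algebraicClosure ℚ k) S') ∧
      MetC.Sol (EL d i0 j0) (Int.castRingHom k) a z} with h𝒵
  have h𝒵f : ∀ i0 j0, (𝒵 i0 j0).Finite := fun i0 j0 =>
    finLines d k a ha hd e h1 h2 h3 S' hS'f haS' i0 j0
  refine ⟨⋃ i0, ⋃ j0, (fun z : Fin 2 × Fin (n + 1) → k =>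
    ((fun j => z (0, j)), (fun j => z (1, j)))) '' 𝒵 i0 j0, ?_, ?_, ?_⟩
  · exact Set.finite_iUnion fun i0 => Set.finite_iUnion fun j0 => (h𝒵f i0 j0).image _
  · intro l hl
    simp only [Set.mem_iUnion] at hl
    obtain ⟨i0, j0, z, ⟨-, hz⟩, rfl⟩ := hl
    obtain ⟨⟨e1, e2, e3, e4⟩, hz0⟩ := (sol_EL d i0 j0 _ a z).1 hz
    exact ⟨frame_li e1 e2 e3 e4, fun m => by rw [hFa m]; exact hz0 m⟩
  · intro j0
    refine (finPts d k hBad a ha hd e h1 h2 h3 S' hS'f haS' j0).subset ?_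
    rintro x ⟨hx1, hx2, hx3, hx4⟩
    refine ⟨fun j => hcl _ (hx2 j), (sol_EP d j0 _ a x).2 ⟨hx1, fun m => by
      rw [← hFa m]; exact hx3 m⟩, fun y hy hsol => ?_⟩
    obtain ⟨⟨hy0, j, hj, hyj⟩, hyF⟩ := (sol_EX d j0 _ a x y).1 hsol
    have hp : plu x y j0 j = 1 := by
      unfold plu
      rw [hx1, hyj, hy0]
      ring
    have hp0 : plu x y j0 j ≠ 0 := by rw [hp]; exact one_ne_zero
    have hmem : ∀ p q, plu x y p q ∈ IntermediateField.adjoin (algebraicClosure ℚ k) S' :=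
      fun p q => sub_mem (mul_mem (hcl _ (hx2 p)) (hy q)) (mul_mem (hcl _ (hx2 q)) (hy p))
    set z : Fin 2 × Fin (n + 1) → k := fun q =>
      if q.1 = 0 then fx x y j0 j q.2 else fy x y j0 j q.2 with hz
    have hz0 : (fun q => z (0, q)) = fx x y j0 j := by
      funext q
      simp [hz]
    have hz1 : (fun q => z (1, q)) = fy x y j0 j := by
      funext q
      simp [hz]
    have hzmem : z ∈ 𝒵 j0 j := by
      refine ⟨fun q => ?_, (sol_EL d j0 j _ a z).2 ⟨⟨?_, ?_, ?_, ?_⟩, fun m => ?_⟩⟩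
      · simp only [hz]
        split_ifs
        · exact div_mem (hmem _ _) (hmem _ _)
        · exact div_mem (hmem _ _) (hmem _ _)
      · simpa [hz] using fx_i x y hp0
      · simpa [hz] using fx_j x y
      · simpa [hz] using fy_i x y
      · simpa [hz] using fy_j x y hp0
      · rw [hz0, hz1]
        exact (lineP_frame x y hp0 (formOf_hom a m)).1 (hyF m)
    refine hx4 (fx x y j0 j, fy x y j0 j) ?_ ⟨x j0, x j, ?_⟩
    · simp only [Set.mem_iUnion]
      exact ⟨j0, j, z, hzmem, by simp only [hz0, hz1]⟩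
    · funext p
      exact x_eq x y hp0 p

/-- finiteness on closed subsets without lines -/
theorem finSolP (hBad : BadlStatement) (F : Fin c → MvPolynomial (Fin (n + 1)) k)
    (hF : ∀ m, (F m).IsHomogeneous (d m))
    (ha : AlgebraicIndependent ℤ (fun s : Ix (M := n) d => coeff s.1.2 (F s.1.1)))
    (hd : ∀ m, 1 ≤ d m) (e : ℕ) (h1 : 2 * n + 1 ≤ c + ∑ m, d m + e)
    (h2 : 2 * e + 2 + c ≤ n) (h3 : 3 + c ≤ n)
    (P : Set (MvPolynomial (Fin (n + 1)) k)) (hFP : Set.range F ⊆ P)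
    (hP : ∀ g ∈ P, ∃ e, g.IsHomogeneous e)
    (hno : ∀ x y : Fin (n + 1) → k, LinearIndependent k ![x, y] → ∃ g ∈ P, lineP g x y ≠ 0) :
    FinSol k n P := by
  intro S hS j0
  obtain ⟨ℒ, hℒ, hℒ1, hℒ2⟩ := structure_pts d k hBad F hF ha hd e h1 h2 h3 S hS
  have hl : ∀ l ∈ ℒ, {x : Fin (n + 1) → k | x j0 = 1 ∧ (∀ g ∈ P, eval x g = 0) ∧
      ∃ s t : k, x = fun p => s * l.1 p + t * l.2 p}.Finite := by
    intro l hl
    obtain ⟨g, hg, hg0⟩ := hno l.1 l.2 (hℒ1 l hl).1
    obtain ⟨e', he'⟩ := hP g hg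
    refine (fin_on_line he' hg0 j0).subset ?_
    rintro x ⟨q1, q2, q3⟩
    exact ⟨q1, q2 g hg, q3⟩
  refine ((hℒ2 j0).union (hℒ.biUnion hl)).subset ?_
  rintro x ⟨hx1, hx2, hx3⟩
  by_cases hex : ∃ l ∈ ℒ, ∃ s t : k, x = fun p => s * l.1 p + t * l.2 p
  · right
    obtain ⟨l, hl', hst⟩ := hex
    simp only [Set.mem_iUnion]
    exact ⟨l, hl', hx1, hx3, hst⟩
  · left
    push Not at hex
    exact ⟨hx1, hx2, fun m => hx3 _ (hFP ⟨m, rfl⟩), fun l hl' hst => by
      obtain ⟨s, t, hst⟩ := hst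
      exact hex l hl' s t hst⟩

end

end Pool.Agent.Lines.H19
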