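import Pool.Agent.Lib.MP_c7af3c_ag.LINES.H19.Htx

/-!
# MP_c7af3c_ag, project LINES: the height inequalities in the form of METC and METX
-/

set_option autoImplicit false

namespace Pool.Agent.Lines.H19

open MvPolynomial WithZero Pool.Agent.Gen Pool.Agent.Sharp Pool.Agent.Sharp.H54
open Pool.Agent.GenY.H46 Pool.Agent.Sharp.H46

section

variable {n c : ℕ} (d : Fin c → ℕ)

theorem bd_toDSysC {L : Type} [Field L] (D : MetC.DD (Ix (M := n) d) L) (S : PlaceSys L)
    (B : S.V → ℕ) (hB : MetC.Bd S D B) : BD S (toDSysC d D) B := by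
  refine ⟨hB.fin, ?_, ?_⟩
  · intro p m I hI f hf
    unfold toDSysC
    rw [toDSys_del _ m I hI]
    exact hB.del p _ f hf
  · intro p m I
    exact coeff_le d (S.v p) D.a (B p) (hB.a p) m I

/-- frames are independent -/
theorem frame_li {L : Type} [Field L] {x y : Fin (n + 1) → L} {i0 j0 : Fin (n + 1)}
    (h1 : x i0 = 1) (h2 : x j0 = 0) (h3 : y i0 = 0) (h4 : y j0 = 1) :
    LinearIndependent L ![x, y] := by
  rw [LinearIndependent.pair_iff]
  intro s t h
  have e1 := congrFun h i0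
  have e2 := congrFun h j0
  simp only [Pi.add_apply, Pi.smul_apply, smul_eq_mul, Pi.zero_apply, h1, h2, h3, h4, mul_one,
    mul_zero, add_zero, zero_add] at e1 e2
  exact ⟨e1, e2⟩

/-- the height of a Plücker coordinate -/
theorem h1_plu_le {L : Type} [Field L] (S : PlaceSys L) (hS : S.IsProd) {x y : Fin (n + 1) → L}
    {i0 j0 : Fin (n + 1)} (h : plu x y i0 j0 = 1) (i j : Fin (n + 1)) :
    MetC.h1 S (plu x y i j) ≤ hL S x y := by
  have hne : plu x y i0 j0 ≠ 0 := by rw [h]; exact one_ne_zero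
  have hy : (![1, plu x y i j] : Fin (1 + 1) → L) ≠ 0 := fun h0 => one_ne_zero (congrFun h0 0)
  refine fs_mono S.w (log_fin (S.finite_mx _ hS.fin hy)) (log_fin (finite_mxP S x y hS.fin hne))
    fun p => ?_
  have h1 : S.mx ![1, plu x y i j] p ≤ mxP S x y p := by
    obtain ⟨k, hk⟩ := S.exists_mx ![1, plu x y i j] p
    rw [← hk]
    rcases fin2_cases k with rfl | rfl
    · change S.v p 1 ≤ _
      rw [← h]
      exact le_mxP S x y p i0 j0
    · exact le_mxP S x y p i j
  have h2 := S.mx_ne_zero _ hy p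
  have h3 := mxP_ne_zero S x y hne p
  rw [← exp_log h2, ← exp_log h3] at h1
  exact WithZero.exp_le_exp.1 h1

/-- the height inequality for the lines inside -/
theorem hbLine (hd : ∀ m, 1 ≤ d m) (e : ℕ) (h1 : 2 * n + 1 ≤ c + ∑ m, d m + e)
    (h2 : 2 * e + 2 + c ≤ n) (h3 : 3 + c ≤ n) (i0 j0 : Fin (n + 1)) :
    MetC.HB (EL d i0 j0) := by
  refine ⟨4 * n + 2, fun L _ _ φ D _ z hz S hS _ B hB j => ?_⟩
  obtain ⟨⟨e1, e2, e3, e4⟩, hz0⟩ := (sol_EL d i0 j0 φ D.a z).1 hz
  set x : Fin (n + 1) → L := fun j => z (0, j) with hx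
  set y : Fin (n + 1) → L := fun j => z (1, j) with hy
  have hxy : LinearIndependent L ![x, y] := frame_li e1 e2 e3 e4
  have hp : plu x y i0 j0 = 1 := by
    unfold plu
    simp only [hx, hy, e1, e2, e4, one_mul, zero_mul, sub_zero]
  have key := htlx (toDSysC d D) x y hxy hz0 hd e h1 h2 h3 S hS B (bd_toDSysC d D S B hB)
  have hzj : z j = plu x y (if j.1 = 0 then j.2 else i0) (if j.1 = 0 then j0 else j.2) := by
    obtain ⟨a, k⟩ := j
    rcases fin2_cases a with rfl | rfl
    · simp only [if_true]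
      unfold plu
      simp only [hx, hy, e2, e4, mul_one, zero_mul, sub_zero]
    · simp only [one_ne_zero, if_false]
      unfold plu
      simp only [hx, hy, e1, e3, one_mul, mul_zero, sub_zero]
  rw [hzj]
  refine (h1_plu_le S hS hp _ _).trans (key.trans (le_of_eq ?_))
  unfold tot
  push_cast
  ring

/-- a second point of a line through `x` can be normalised -/
theorem normalise {L : Type} [Field L] [CharZero L] {x y : Fin (n + 1) → L} {j0 : Fin (n + 1)}
    (hj0 : x j0 = 1) (hxy : LinearIndependent L ![x, y]) :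
    ∃ y' : Fin (n + 1) → L, (y' j0 = 0 ∧ ∃ j, j ≠ j0 ∧ y' j = 1) ∧
      ∀ (G : MvPolynomial (Fin (n + 1)) L) (e : ℕ), G.IsHomogeneous e → lineP G x y = 0 →
        lineP G x y' = 0 := by
  obtain ⟨j, hj⟩ : ∃ j, y j - y j0 * x j ≠ 0 := by
    by_contra hc
    push Not at hc
    rw [LinearIndependent.pair_iff] at hxy
    have := hxy (- y j0) 1 (by
      funext j
      have h1 := hc j
      simp only [Pi.add_apply, Pi.smul_apply, smul_eq_mul, Pi.zero_apply]
      linear_combination h1)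
    exact one_ne_zero this.2
  refine ⟨fun k => (y k - y j0 * x k) / (y j - y j0 * x j), ⟨?_, j, ?_, div_self hj⟩, ?_⟩
  · simp only [hj0, mul_one, sub_self, zero_div]
  · rintro rfl
    exact hj (by rw [hj0, mul_one, sub_self])
  · intro G e hG h
    rw [lineP_zero_iff hG] at h ⊢
    intro s t
    have h1 := h (s - t * y j0 / (y j - y j0 * x j)) (t / (y j - y j0 * x j))
    rw [← h1]
    congr 2
    funext p
    field_simp
    ring

/-- the height inequality for the points which are not on lines inside -/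
theorem hbPt (hBad : BadlStatement) (hd : ∀ m, 1 ≤ d m) (e : ℕ)
    (h1 : 2 * n + 1 ≤ c + ∑ m, d m + e)
    (h2 : 2 * e + 2 + c ≤ n) (h3 : 3 + c ≤ n) (j0 : Fin (n + 1)) :
    MetX.HB (EP d j0) (EX d j0) := by
  refine ⟨(∑ m, d m + 1) * (4 * n + 2) + 1, fun L _ _ φ D _ z hz hex S hS _ B hB j => ?_⟩
  obtain ⟨hz0, hzF⟩ := (sol_EP d j0 φ D.a z).1 hz
  refine (ht_single_le j0 S hS.fin z hz0 j).trans ?_
  have hno : ∀ y, LinearIndependent L ![z, y] →
      ∃ m, lineP ((toDSysC d D).F m) z y ≠ 0 := by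
    intro y hy
    by_contra hc
    push Not at hc
    obtain ⟨y', hy', hy''⟩ := normalise hz0 hy
    refine hex y' ((sol_EX d j0 φ D.a z y').2 ⟨hy', fun m => ?_⟩)
    exact hy'' _ _ (formOf_hom D.a m) (hc m)
  have key := htx (toDSysC d D) hBad (toDSysC_comm d D) z j0 hz0 hzF hd e h1 h2 h3 hno S hS B
    (bd_toDSysC d D S B hB)
  refine key.trans (le_of_eq ?_)
  unfold tot
  push_cast
  ring

end

end Pool.Agent.Lines.H19
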