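import Pool.Agent.Lib.MP_c7af3c_ag.LINES.H19.Bas
import Pool.Agent.Lib.MP_c7af3c_ag.SHARP.H46.Fin
import Pool.Agent.Lib.MP_c7af3c_ag.METX.All

/-!
# MP_c7af3c_ag, project LINES: the systems of equations (lines in X, points not on lines in X)
-/

set_option autoImplicit false

namespace Pool.Agent.Lines.H19

open MvPolynomial WithZero Pool.Agent.Gen Pool.Agent.GenY.H46 Pool.Agent.Sharp
open Pool.Agent.Sharp.H46 Pool.Agent.Sharp.H54

section

variable {n c : ℕ} (d : Fin c → ℕ) {J : Type}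

/-- the generic form restricted to the line through two vectors of polynomials -/
noncomputable def genLine (u v : Fin (n + 1) → MvPolynomial (Ix (M := n) d ⊕ J) ℤ) (m : Fin c) :
    Polynomial (MvPolynomial (Ix (M := n) d ⊕ J) ℤ) :=
  ∑ s : Ix (M := n) d, if s.1.1 = m then Polynomial.C (X (Sum.inl s)) *
    ∏ j, (Polynomial.C (u j) + Polynomial.X * Polynomial.C (v j)) ^ s.1.2 j else 0

theorem lineP_formOf {L : Type} [Field L] (a : Ix (M := n) d → L) (m : Fin c)
    (x y : Fin (n + 1) → L) : lineP (formOf a m) x y =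
      ∑ s : Ix (M := n) d, if s.1.1 = m then Polynomial.C (a s) *
        ∏ j, (Polynomial.C (x j) + Polynomial.X * Polynomial.C (y j)) ^ s.1.2 j else 0 := by
  classical
  unfold formOf lineP
  rw [map_sum]
  refine Finset.sum_congr rfl fun s _ => ?_
  split_ifs
  · rw [aeval_monomial, Finsupp.prod_fintype _ _ (fun _ => pow_zero _)]
    rfl
  · exact map_zero _

theorem map_genLine {L : Type} [Field L] (φ : ℤ →+* L) (a : Ix (M := n) d → L) (z : J → L)
    (u v : Fin (n + 1) → MvPolynomial (Ix (M := n) d ⊕ J) ℤ) (m : Fin c) :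
    (genLine d u v m).map (eval₂Hom φ (Sum.elim a z)) =
      lineP (formOf a m) (fun j => eval₂ φ (Sum.elim a z) (u j))
        (fun j => eval₂ φ (Sum.elim a z) (v j)) := by
  classical
  rw [lineP_formOf, genLine, Polynomial.map_sum]
  refine Finset.sum_congr rfl fun s _ => ?_
  split_ifs
  · simp only [Polynomial.map_mul, Polynomial.map_prod, Polynomial.map_pow, Polynomial.map_add,
      Polynomial.map_C, Polynomial.map_X, coe_eval₂Hom, eval₂_X, Sum.elim_inl]
  · exact Polynomial.map_zero _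

/-- the equations: the coefficients of the generic form restricted to the line -/
def lineEq (u v : Fin (n + 1) → MvPolynomial (Ix (M := n) d ⊕ J) ℤ) :
    Set (MvPolynomial (Ix (M := n) d ⊕ J) ℤ) :=
  Set.range fun b : Σ m : Fin c, Fin (d m + 1) => (genLine d u v b.1).coeff b.2.1

theorem sol_lineEq {L : Type} [Field L] [CharZero L] (φ : ℤ →+* L) (a : Ix (M := n) d → L)
    (z : J → L) (u v : Fin (n + 1) → MvPolynomial (Ix (M := n) d ⊕ J) ℤ) :
    (∀ P ∈ lineEq d u v, eval₂ φ (Sum.elim a z) P = 0) ↔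
      ∀ m, lineP (formOf a m) (fun j => eval₂ φ (Sum.elim a z) (u j))
        (fun j => eval₂ φ (Sum.elim a z) (v j)) = 0 := by
  constructor
  · intro h m
    ext b
    rw [Polynomial.coeff_zero]
    by_cases hb : b ≤ d m
    · rw [← map_genLine, Polynomial.coeff_map]
      exact h _ ⟨⟨m, ⟨b, by omega⟩⟩, rfl⟩
    · refine Polynomial.coeff_eq_zero_of_natDegree_lt ?_
      have := natDegree_lineP_le (fun j => eval₂ φ (Sum.elim a z) (u j))
        (fun j => eval₂ φ (Sum.elim a z) (v j)) (formOf_hom a m)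
      omega
  · rintro h _ ⟨⟨m, b⟩, rfl⟩
    have h1 := congrArg (fun p => Polynomial.coeff p b.1) (map_genLine d φ a z u v m)
    simp only [Polynomial.coeff_map, coe_eval₂Hom] at h1
    rw [h1, h m, Polynomial.coeff_zero]

/-! ### lines in the complete intersection -/

/-- the vectors of variables -/
noncomputable def vecL (a : Fin 2) (j : Fin (n + 1)) :
    MvPolynomial (Ix (M := n) d ⊕ (Fin 2 × Fin (n + 1))) ℤ := X (Sum.inr (a, j))

/-- the system of the lines in the complete intersection, with frame at `i0, j0` -/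
def EL (i0 j0 : Fin (n + 1)) : Set (MvPolynomial (Ix (M := n) d ⊕ (Fin 2 × Fin (n + 1))) ℤ) :=
  {vecL d 0 i0 - 1, vecL d 0 j0, vecL d 1 i0, vecL d 1 j0 - 1} ∪
    lineEq d (vecL d 0) (vecL d 1)

theorem sol_EL {L : Type} [Field L] [CharZero L] (i0 j0 : Fin (n + 1)) (φ : ℤ →+* L)
    (a : Ix (M := n) d → L) (z : Fin 2 × Fin (n + 1) → L) : MetC.Sol (EL d i0 j0) φ a z ↔
      (z (0, i0) = 1 ∧ z (0, j0) = 0 ∧ z (1, i0) = 0 ∧ z (1, j0) = 1) ∧
      ∀ m, lineP (formOf a m) (fun j => z (0, j)) (fun j => z (1, j)) = 0 := by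
  have hv : ∀ b j, eval₂ φ (Sum.elim a z) (vecL d b j) = z (b, j) := fun b j => by
    unfold vecL
    rw [eval₂_X, Sum.elim_inr]
  have key := sol_lineEq d φ a z (vecL d 0) (vecL d 1)
  simp only [hv] at key
  constructor
  · intro h
    refine ⟨⟨?_, ?_, ?_, ?_⟩, key.1 fun P hP => h P (Or.inr hP)⟩
    · have h1 := h _ (Or.inl (Or.inl rfl))
      rwa [eval₂_sub, hv, eval₂_one, sub_eq_zero] at h1
    · have h1 := h _ (Or.inl (Or.inr (Or.inl rfl)))
      rwa [hv] at h1
    · have h1 := h _ (Or.inl (Or.inr (Or.inr (Or.inl rfl))))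
      rwa [hv] at h1
    · have h1 := h _ (Or.inl (Or.inr (Or.inr (Or.inr rfl))))
      rwa [eval₂_sub, hv, eval₂_one, sub_eq_zero] at h1
  · rintro ⟨⟨h1, h2, h3, h4⟩, h5⟩ P (hP | hP)
    · rcases hP with rfl | rfl | rfl | hP
      · rw [eval₂_sub, hv, eval₂_one, h1, sub_self]
      · rw [hv, h2]
      · rw [hv, h3]
      · rw [Set.mem_singleton_iff.1 hP, eval₂_sub, hv, eval₂_one, h4, sub_self]
    · exact key.2 h5 P hP

/-! ### points on lines -/

/-- the point -/
noncomputable def vecX (j : Fin (n + 1)) :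
    MvPolynomial (Ix (M := n) d ⊕ (Fin (n + 1) ⊕ Fin (n + 1))) ℤ := X (Sum.inr (Sum.inl j))

/-- the second vector -/
noncomputable def vecY (j : Fin (n + 1)) :
    MvPolynomial (Ix (M := n) d ⊕ (Fin (n + 1) ⊕ Fin (n + 1))) ℤ := X (Sum.inr (Sum.inr j))

/-- the second system: `y` is a second point of a line through `z` in the complete intersection,
with `y j0 = 0` and some other coordinate `1` -/
def EX (j0 : Fin (n + 1)) :
    Set (MvPolynomial (Ix (M := n) d ⊕ (Fin (n + 1) ⊕ Fin (n + 1))) ℤ) :=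
  {vecY d j0, ∏ j ∈ Finset.univ.erase j0, (vecY d j - 1)} ∪ lineEq d (vecX d) (vecY d)

theorem finite_EX (j0 : Fin (n + 1)) : (EX d j0).Finite := by
  unfold EX lineEq
  exact (Set.toFinite _).union (Set.finite_range _)

theorem sol_EX {L : Type} [Field L] [CharZero L] (j0 : Fin (n + 1)) (φ : ℤ →+* L)
    (a : Ix (M := n) d → L) (x y : Fin (n + 1) → L) :
    MetC.Sol (EX d j0) φ a (Sum.elim x y) ↔
      (y j0 = 0 ∧ ∃ j, j ≠ j0 ∧ y j = 1) ∧ ∀ m, lineP (formOf a m) x y = 0 := by
  have hx : ∀ j, eval₂ φ (Sum.elim a (Sum.elim x y)) (vecX d j) = x j := fun j => by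
    unfold vecX
    rw [eval₂_X, Sum.elim_inr, Sum.elim_inl]
  have hy : ∀ j, eval₂ φ (Sum.elim a (Sum.elim x y)) (vecY d j) = y j := fun j => by
    unfold vecY
    rw [eval₂_X, Sum.elim_inr, Sum.elim_inr]
  have key := sol_lineEq d φ a (Sum.elim x y) (vecX d) (vecY d)
  simp only [hx, hy] at key
  have hprod : eval₂ φ (Sum.elim a (Sum.elim x y))
      (∏ j ∈ Finset.univ.erase j0, (vecY d j - 1)) = 0 ↔ ∃ j, j ≠ j0 ∧ y j = 1 := by
    rw [← coe_eval₂Hom, map_prod, Finset.prod_eq_zero_iff]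
    simp only [coe_eval₂Hom, eval₂_sub, hy, eval₂_one, sub_eq_zero, Finset.mem_erase,
      Finset.mem_univ, and_true]
  constructor
  · intro h
    refine ⟨⟨?_, ?_⟩, key.1 fun P hP => h P (Or.inr hP)⟩
    · have h1 := h _ (Or.inl (Or.inl rfl))
      rwa [hy] at h1
    · exact hprod.1 (h _ (Or.inl (Or.inr rfl)))
  · rintro ⟨⟨h1, h2⟩, h5⟩ P (hP | hP)
    · rcases hP with rfl | hP
      · rw [hy, h1]
      · rw [Set.mem_singleton_iff.1 hP]
        exact hprod.2 h2
    · exact key.2 h5 P hP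

end

end Pool.Agent.Lines.H19
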