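import Pool.Agent.Lib.MP_c7af3c_ag.LINES.H19.Htl
import Pool.Agent.Lib.MP_c7af3c_ag.LINES.H19.Sys
import Pool.Agent.Lib.MP_c7af3c_ag.LINES.H75.LvarS
import Pool.Agent.Lib.MP_c7af3c_ag.LINES.H54.LvarX
import Pool.Agent.Lib.MP_c7af3c_ag.GEN.H26.Lin
import Pool.Agent.Lib.MP_c7af3c_ag.GEN.H52.Glob

/-!
# MP_c7af3c_ag, project LINES: the height inequalities (modules HTX, HTLX)
-/

set_option autoImplicit false

namespace Pool.Agent.Lines.H19

open MvPolynomial WithZero Pool.Agent.Gen Pool.Agent.Sharp Pool.Agent.Sharp.H54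
open Pool.Agent.GenY.H46 Pool.Agent.Sharp.H46

/-- Module BADL: few pairs give a line with small variation. -/
def BadlStatement : Prop := ∀ (L : Type) [Field L] [CharZero L] (n c : ℕ) (d : Fin c → ℕ)
  (D : DSys L n c d) (x : Fin (n + 1) → L) (j0 : Fin (n + 1)), x j0 = 1 →
  (∀ m, eval x (D.F m) = 0) → (∀ m, 1 ≤ d m) → ∀ e : ℕ, 2 * n + 1 ≤ c + ∑ m, d m + e →
  2 * e + 2 + c ≤ n → ∀ (S : PlaceSys L), S.IsProd → ∀ B : S.V → ℕ, BD S D B →
    S.ht x ≤ (2 * n + 2) * tot S B ∨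
    ∃ y, LinearIndependent L ![x, y] ∧ Module.finrank L (E1 D x y) ≤ e + 1

section

variable {L : Type} [Field L] {n c : ℕ} {d : Fin c → ℕ} (D : DSys L n c d)

/-- Module HTX: the height inequality for points which are not on a line over `L` inside. -/
theorem htx (hBad : BadlStatement) [CharZero L] (hcomm : Comm D) (x : Fin (n + 1) → L)
    (j0 : Fin (n + 1)) (hj0 : x j0 = 1) (h0 : ∀ m, eval x (D.F m) = 0) (hd : ∀ m, 1 ≤ d m)
    (e : ℕ) (h1 : 2 * n + 1 ≤ c + ∑ m, d m + e) (h2 : 2 * e + 2 + c ≤ n) (h3 : 3 + c ≤ n)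
    (hno : ∀ y, LinearIndependent L ![x, y] → ∃ m, lineP (D.F m) x y ≠ 0)
    (S : PlaceSys L) (hS : S.IsProd) (B : S.V → ℕ) (hB : BD S D B) :
    S.ht x ≤ ((∑ m, d m : ℕ) + 1) * (4 * n + 2) * tot S B + tot S B := by
  have hx : x ≠ 0 := fun h => one_ne_zero (by rw [← hj0, h]; rfl)
  have htn := tot_nonneg S B
  have hbig : (2 * n + 2 : ℤ) * tot S B ≤
      ((∑ m, d m : ℕ) + 1) * (4 * n + 2) * tot S B + tot S B := by
    have k1 : (2 * n + 2 : ℤ) ≤ ((∑ m, d m : ℕ) + 1) * (4 * n + 2) + 1 := by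
      have : (0 : ℤ) ≤ ((∑ m, d m : ℕ) : ℤ) := by positivity
      have : (0 : ℤ) ≤ (n : ℤ) := by positivity
      have h4 : (3 : ℤ) ≤ n := by
        have : 3 ≤ n := by omega
        exact_mod_cast this
      nlinarith
    have := mul_le_mul_of_nonneg_right k1 htn
    linarith
  by_cases hc : 2 * n + 2 ≤ c + ∑ m, d m
  · have := H52.glob H12.reln H26.lin H52.loc L n c d D x hx h0 hc S hS B hB.fin hB.del hB.F
    exact this.trans hbig
  · set e' := 2 * n + 1 - (c + ∑ m, d m) with he'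
    rcases hBad L n c d D x j0 hj0 h0 hd e' (by omega) (by omega) S hS B hB with h | ⟨y, hxy, hE⟩
    · exact h.trans hbig
    · have hSL := H75.lvar L n c d D hcomm x y hxy h0 e' hE (by omega)
      have h4 := four L n c d D x y hxy
      obtain ⟨q, hq⟩ := Nat.exists_eq_add_of_le h4
      have hc1 : 1 ≤ c := by
        by_contra hc0
        have hc0' : c = 0 := by omega
        subst hc0'
        simp at he'
        omega
      obtain ⟨M, hM, hnum⟩ := num n c e' q d hd hc1 (by omega) (by omega) h3 (by omega) (by omega)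
      have hL1 := htl D x y hxy q hq M hM (by omega) hnum S hS B hB
      obtain ⟨m, hm⟩ := hno y hxy
      have hroot := root S hS D B hB hxy hj0 m (h0 m) hm
      have hdm : ((d m : ℕ) : ℤ) ≤ ((∑ m, d m : ℕ) : ℤ) := by
        exact_mod_cast Finset.single_le_sum (f := d) (fun _ _ => Nat.zero_le _)
          (Finset.mem_univ m)
      have hnn := hL_nonneg x y S hS hxy
      have k2 : ((d m : ℤ) + 1) * hL S x y ≤
          (((∑ m, d m : ℕ) : ℤ) + 1) * ((4 * n + 2) * tot S B) := by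
        calc ((d m : ℤ) + 1) * hL S x y ≤ (((∑ m, d m : ℕ) : ℤ) + 1) * hL S x y :=
              mul_le_mul_of_nonneg_right (by linarith) hnn
          _ ≤ _ := mul_le_mul_of_nonneg_left hL1 (by positivity)
      refine hroot.trans ?_
      rw [mul_assoc]
      linarith

/-- Module HTLX: the height of a line inside. -/
theorem htlx [CharZero L] (x y : Fin (n + 1) → L) (hxy : LinearIndependent L ![x, y])
    (h0 : OnLine x y D.F) (hd : ∀ m, 1 ≤ d m) (e : ℕ) (h1 : 2 * n + 1 ≤ c + ∑ m, d m + e)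
    (h2 : 2 * e + 2 + c ≤ n) (h3 : 3 + c ≤ n)
    (S : PlaceSys L) (hS : S.IsProd) (B : S.V → ℕ) (hB : BD S D B) :
    hL S x y ≤ (4 * n + 2) * tot S B := by
  have hSL := H54.lvarx L n c d D x y hxy h0
  have h4 := four L n c d D x y hxy
  obtain ⟨q, hq⟩ := Nat.exists_eq_add_of_le h4
  have hc1 : 1 ≤ c := by
    by_contra hc0
    have hc0' : c = 0 := by omega
    subst hc0'
    simp at h1
    omega
  obtain ⟨M, hM, hnum⟩ := num n c e q d hd hc1 h1 h2 h3 (by omega) (by omega)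
  exact htl D x y hxy q hq M hM (by omega) hnum S hS B hB

end

end Pool.Agent.Lines.H19
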