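import Pool.Agent.Lib.MP_c7af3c_ag.LINES.Iface
import Pool.Agent.Lib.MP_c7af3c_ag.SHARP.H54.Root

/-!
# MP_c7af3c_ag, project LINES: forms vanishing on a line (module LIDL)
-/

set_option autoImplicit false

namespace Pool.Agent.Lines.H19

open MvPolynomial Pool.Agent.Gen Pool.Agent.Sharp Pool.Agent.Sharp.H54

variable {L : Type} [Field L] {n : ℕ}

/-- vanishing on a line, pointwise -/
theorem lineP_zero_iff [CharZero L] {G : MvPolynomial (Fin (n + 1)) L} {e : ℕ}
    (hG : G.IsHomogeneous e) (x y : Fin (n + 1) → L) :
    lineP G x y = 0 ↔ ∀ s t : L, eval (fun p => s * x p + t * y p) G = 0 := by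
  constructor
  · intro h
    have h1 : ∀ s t : L, s ≠ 0 → eval (fun p => s * x p + t * y p) G = 0 := by
      intro s t hs
      have e1 : (fun p => s * x p + t * y p) = fun p => s * (x p + (t / s) * y p) := by
        funext p
        field_simp
      rw [e1, eval_smul_form hG, ← lineP_eval, h, Polynomial.eval_zero, mul_zero]
    intro s t
    by_cases hs : s = 0
    · have h2 : lineP G (fun p => t * y p) x = 0 := by
        apply Polynomial.eq_zero_of_infinite_isRoot
        refine Set.Infinite.mono ?_ (Set.infinite_range_of_injective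
          (f := fun k : ℕ => ((k + 1 : ℕ) : L)) (fun a b hab => by
            have := Nat.cast_injective (R := L) hab
            omega))
        rintro _ ⟨k, rfl⟩
        simp only [Set.mem_ofPred_eq, Polynomial.IsRoot.def]
        rw [lineP_eval]
        have h3 := h1 ((k + 1 : ℕ) : L) t (Nat.cast_ne_zero.2 (Nat.succ_ne_zero k))
        rw [← h3]
        congr 1
        congr 1
        funext p
        ring
      have h3 := lineP_eval G (fun p => t * y p) x 0
      rw [h2, Polynomial.eval_zero] at h3
      have h4 : (fun p => s * x p + t * y p) = fun p => t * y p + 0 * x p := by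
        funext p
        rw [hs]
        ring
      rw [h4, ← h3]
    · exact h1 s t hs
  · intro h
    apply Polynomial.funext
    intro t
    rw [lineP_eval, Polynomial.eval_zero]
    have := h 1 t
    simpa only [one_mul] using this

section

variable (x y : Fin (n + 1) → L) (i0 j0 : Fin (n + 1))

/-- the span of the multiples of three term forms -/
noncomputable def NN (e : ℕ) : Submodule L (MvPolynomial (Fin (n + 1)) L) :=
  Submodule.span L {P | ∃ i j k, ∃ I : Fin (n + 1) →₀ ℕ, I.degree + 1 = e ∧
      P = hT x y i j k * monomial I 1}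

theorem NN_mulX {e : ℕ} {P : MvPolynomial (Fin (n + 1)) L} (hP : P ∈ NN x y e)
    (j : Fin (n + 1)) : X j * P ∈ NN x y (e + 1) := by
  classical
  unfold NN at hP ⊢
  induction hP using Submodule.span_induction with
  | mem P h =>
    obtain ⟨i, j', k, I, hI, rfl⟩ := h
    refine Submodule.subset_span ⟨i, j', k, I + Finsupp.single j 1, ?_, ?_⟩
    · rw [map_add, Finsupp.degree_single]
      omega
    · have : (monomial (I + Finsupp.single j 1) 1 : MvPolynomial (Fin (n + 1)) L) =
          monomial I 1 * X j := by
        rw [X, monomial_mul, mul_one]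
      rw [this]
      ring
  | zero => rw [mul_zero]; exact Submodule.zero_mem _
  | add P Q _ _ hP hQ => rw [mul_add]; exact Submodule.add_mem _ hP hQ
  | smul a P _ hP => rw [mul_smul_comm]; exact Submodule.smul_mem _ a hP

/-- the projection to forms in two variables -/
noncomputable def psi : MvPolynomial (Fin (n + 1)) L →ₐ[L] MvPolynomial (Fin (n + 1)) L :=
  aeval fun k => C (fx x y i0 j0 k) * X i0 + C (fy x y i0 j0 k) * X j0

theorem psi_X (k : Fin (n + 1)) :
    psi x y i0 j0 (X k) = C (fx x y i0 j0 k) * X i0 + C (fy x y i0 j0 k) * X j0 := aeval_X _ _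

variable {i0 j0}

theorem X_sub_psi (h : plu x y i0 j0 ≠ 0) (k : Fin (n + 1)) :
    X k - psi x y i0 j0 (X k) = C (plu x y i0 j0)⁻¹ * hT x y i0 j0 k := by
  rw [psi_X]
  unfold hT fx fy
  have e1 : (C (plu x y i0 j0)⁻¹ : MvPolynomial (Fin (n + 1)) L) * C (plu x y i0 j0) = 1 := by
    rw [← C_mul, inv_mul_cancel₀ h, C_1]
  have e2 : plu x y k j0 = - plu x y j0 k := by unfold plu; ring
  rw [e2, div_eq_mul_inv, div_eq_mul_inv, C_mul, C_mul, C_neg]
  linear_combination (-X k) * e1

theorem monomial_sub_psi (h : plu x y i0 j0 ≠ 0) (e : ℕ) : ∀ I : Fin (n + 1) →₀ ℕ,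
    I.degree = e → monomial I 1 - psi x y i0 j0 (monomial I 1) ∈ NN x y e := by
  classical
  induction e with
  | zero =>
    intro I hI
    rw [Finsupp.degree_eq_zero_iff] at hI
    subst hI
    have : (monomial 0 1 : MvPolynomial (Fin (n + 1)) L) = 1 := rfl
    rw [this, map_one, sub_self]
    exact Submodule.zero_mem _
  | succ e ih =>
    intro I hI
    obtain ⟨k, hk⟩ : ∃ k, I k ≠ 0 := by
      by_contra hc
      push Not at hc
      have : I = 0 := Finsupp.ext hc
      rw [this] at hI
      simp at hI
    have hI' : I = Finsupp.single k 1 + (I - Finsupp.single k 1) := by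
      rw [add_tsub_cancel_of_le]
      rw [Finsupp.single_le_iff]
      omega
    set J := I - Finsupp.single k 1 with hJ
    have hJe : J.degree = e := by
      rw [hI', map_add, Finsupp.degree_single] at hI
      omega
    have e1 : (monomial I 1 : MvPolynomial (Fin (n + 1)) L) = X k * monomial J 1 := by
      rw [hI', X, monomial_mul, mul_one]
    have h1 := ih J hJe
    rw [e1, map_mul]
    have e2 : X k * monomial J 1 - psi x y i0 j0 (X k) * psi x y i0 j0 (monomial J 1) =
        (plu x y i0 j0)⁻¹ • (hT x y i0 j0 k * monomial J 1) +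
        (fx x y i0 j0 k • (X i0 * (monomial J 1 - psi x y i0 j0 (monomial J 1))) +
          fy x y i0 j0 k • (X j0 * (monomial J 1 - psi x y i0 j0 (monomial J 1)))) := by
      have e3 := X_sub_psi x y h k
      rw [psi_X] at e3 ⊢
      simp only [smul_eq_C_mul]
      linear_combination (monomial J 1 : MvPolynomial (Fin (n + 1)) L) * e3
    rw [e2]
    refine Submodule.add_mem _ (Submodule.smul_mem _ _ (Submodule.subset_span
      ⟨i0, j0, k, J, by omega, rfl⟩)) (Submodule.add_mem _ (Submodule.smul_mem _ _ ?_)
        (Submodule.smul_mem _ _ ?_))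
    · exact NN_mulX x y h1 i0
    · exact NN_mulX x y h1 j0

theorem sub_psi (h : plu x y i0 j0 ≠ 0) {e : ℕ} {G : MvPolynomial (Fin (n + 1)) L}
    (hG : G.IsHomogeneous e) : G - psi x y i0 j0 G ∈ NN x y e := by
  classical
  have h1 : G = ∑ I ∈ G.support, coeff I G • monomial I 1 := by
    conv_lhs => rw [G.as_sum]
    refine Finset.sum_congr rfl fun I _ => ?_
    rw [smul_monomial, smul_eq_mul, mul_one]
  have h2 : G - psi x y i0 j0 G =
      ∑ I ∈ G.support, coeff I G • (monomial I 1 - psi x y i0 j0 (monomial I 1)) := by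
    conv_lhs => rw [h1]
    rw [map_sum, ← Finset.sum_sub_distrib]
    refine Finset.sum_congr rfl fun I _ => ?_
    rw [map_smul, smul_sub]
  rw [h2]
  refine Submodule.sum_mem _ fun I hI => Submodule.smul_mem _ _ (monomial_sub_psi x y h e I ?_)
  have := hG (mem_support_iff.1 hI)
  rwa [Finsupp.degree_eq_weight_one]

theorem psi_eq_zero [CharZero L] (h : plu x y i0 j0 ≠ 0) {e : ℕ}
    {G : MvPolynomial (Fin (n + 1)) L} (hG : G.IsHomogeneous e) (h0 : lineP G x y = 0) :
    psi x y i0 j0 G = 0 := by
  apply MvPolynomial.funext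
  intro v
  rw [map_zero]
  have e1 : eval v (psi x y i0 j0 G) =
      eval (fun p => (y j0 * v i0 - y i0 * v j0) / plu x y i0 j0 * x p +
        (x i0 * v j0 - x j0 * v i0) / plu x y i0 j0 * y p) G := by
    have e2 : (eval v).comp (psi x y i0 j0).toRingHom =
        eval (fun p => (y j0 * v i0 - y i0 * v j0) / plu x y i0 j0 * x p +
        (x i0 * v j0 - x j0 * v i0) / plu x y i0 j0 * y p) := by
      apply MvPolynomial.ringHom_ext
      · intro a
        have : (psi x y i0 j0) (C a) = C a := (psi x y i0 j0).commutes a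
        simp [this]
      · intro k
        have := psi_X x y i0 j0 k
        simp only [AlgHom.toRingHom_eq_coe, RingHom.comp_apply, RingHom.coe_coe, this, map_add,
          map_mul, eval_C, eval_X]
        unfold fx fy
        field_simp
        unfold plu
        ring
    exact congrArg (fun f => f G) (congrArg DFunLike.coe e2)
  rw [e1]
  exact (lineP_zero_iff hG x y).1 h0 _ _

end

/-- independent vectors have a nonzero Plücker coordinate -/
theorem exists_plu {x y : Fin (n + 1) → L} (h : LinearIndependent L ![x, y]) :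
    ∃ i j, plu x y i j ≠ 0 := by
  have hx : x ≠ 0 := by
    have := h.ne_zero 0
    simpa using this
  obtain ⟨j, hj⟩ := Function.ne_iff.1 hx
  obtain ⟨i, hi⟩ := exists_plu_ne h (show x j ≠ 0 from hj)
  exact ⟨j, i, hi⟩

/-- Module LIDL. -/
theorem lidl : LidlStatement := by
  intro L _ _ n e x y hxy G hG h0
  obtain ⟨i0, j0, h⟩ := exists_plu hxy
  have h1 := sub_psi x y h hG
  rwa [psi_eq_zero x y h hG h0, sub_zero] at h1

end Pool.Agent.Lines.H19
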