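import Pool.Agent.Lib.MP_c7af3c_ag.LINES.H19.Lidl
import Pool.Agent.Lib.MP_c7af3c_ag.SHARP.H26.Pair

/-!
# MP_c7af3c_ag, project LINES: the columns span (modules LSUR, FOUR)
-/

set_option autoImplicit false

namespace Pool.Agent.Lines.H19

open MvPolynomial Pool.Agent.Gen Pool.Agent.Sharp Pool.Agent.Sharp.H54

variable {L : Type} [Field L] {n : ℕ}

section frame

variable (x y : Fin (n + 1) → L) {i0 j0 : Fin (n + 1)}

theorem fx_i (h : plu x y i0 j0 ≠ 0) : fx x y i0 j0 i0 = 1 := div_self h

theorem fx_j : fx x y i0 j0 j0 = 0 := by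
  unfold fx plu
  rw [sub_self, zero_div]

theorem fy_i : fy x y i0 j0 i0 = 0 := by
  unfold fy plu
  rw [sub_self, zero_div]

theorem fy_j (h : plu x y i0 j0 ≠ 0) : fy x y i0 j0 j0 = 1 := div_self h

theorem x_eq (h : plu x y i0 j0 ≠ 0) (k : Fin (n + 1)) :
    x k = x i0 * fx x y i0 j0 k + x j0 * fy x y i0 j0 k := by
  unfold fx fy
  field_simp
  unfold plu
  ring

theorem y_eq (h : plu x y i0 j0 ≠ 0) (k : Fin (n + 1)) :
    y k = y i0 * fx x y i0 j0 k + y j0 * fy x y i0 j0 k := by
  unfold fx fy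
  field_simp
  unfold plu
  ring

theorem fx_eq (h : plu x y i0 j0 ≠ 0) (k : Fin (n + 1)) :
    fx x y i0 j0 k = y j0 / plu x y i0 j0 * x k + - x j0 / plu x y i0 j0 * y k := by
  unfold fx
  field_simp
  unfold plu
  ring

theorem fy_eq (h : plu x y i0 j0 ≠ 0) (k : Fin (n + 1)) :
    fy x y i0 j0 k = - y i0 / plu x y i0 j0 * x k + x i0 / plu x y i0 j0 * y k := by
  unfold fy
  field_simp
  unfold plu
  ring

/-- vanishing on the line does not depend on the frame -/
theorem lineP_frame [CharZero L] (h : plu x y i0 j0 ≠ 0) {G : MvPolynomial (Fin (n + 1)) L}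
    {e : ℕ} (hG : G.IsHomogeneous e) :
    lineP G x y = 0 ↔ lineP G (fx x y i0 j0) (fy x y i0 j0) = 0 := by
  rw [lineP_zero_iff hG, lineP_zero_iff hG]
  constructor
  · intro h1 s t
    have h2 := h1 (s * (y j0 / plu x y i0 j0) + t * (- y i0 / plu x y i0 j0))
      (s * (- x j0 / plu x y i0 j0) + t * (x i0 / plu x y i0 j0))
    rw [← h2]
    congr 2
    funext p
    rw [fx_eq x y h, fy_eq x y h]
    ring
  · intro h1 s t
    have h2 := h1 (s * x i0 + t * y i0) (s * x j0 + t * y j0)
    rw [← h2]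
    congr 2
    funext p
    rw [x_eq x y h p, y_eq x y h p]
    ring

/-- the degree of the restriction -/
theorem natDegree_lineP_le {G : MvPolynomial (Fin (n + 1)) L} {e : ℕ}
    (hG : G.IsHomogeneous e) : (lineP G x y).natDegree ≤ e := by
  classical
  have h1 : lineP G x y = ∑ I ∈ G.support, Polynomial.C (coeff I G) *
      ∏ p, (Polynomial.C (x p) + Polynomial.X * Polynomial.C (y p)) ^ (I p) := by
    unfold lineP
    rw [aeval_def, eval₂_eq']
    rfl
  rw [h1]
  refine Polynomial.natDegree_sum_le_of_forall_le _ _ fun I hI => ?_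
  have h2 : I.degree = e := by
    have := hG (mem_support_iff.1 hI)
    rwa [Finsupp.degree_eq_weight_one]
  refine (Polynomial.natDegree_C_mul_le _ _).trans ((Polynomial.natDegree_prod_le _ _).trans ?_)
  rw [← h2, Finsupp.degree_eq_sum]
  refine Finset.sum_le_sum fun p _ => ?_
  refine Polynomial.natDegree_pow_le.trans ?_
  have h3 : (Polynomial.C (x p) + Polynomial.X * Polynomial.C (y p)).natDegree ≤ 1 := by
    refine (Polynomial.natDegree_add_le _ _).trans (max_le ?_ ?_)
    · rw [Polynomial.natDegree_C]; exact Nat.zero_le _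
    · refine (Polynomial.natDegree_mul_C_le _ _).trans Polynomial.natDegree_X_le
  calc I p * _ ≤ I p * 1 := Nat.mul_le_mul_left _ h3
    _ = I p := mul_one _

end frame

section lsur

variable {c : ℕ} {d : Fin c → ℕ} (D : DSys L n c d) (x y : Fin (n + 1) → L)

theorem pr_add (u v u' v' : Fin (n + 1) → L) : pr (u + u') (v + v') = pr u v + pr u' v' := by
  funext q
  unfold pr
  simp only [Pi.add_apply]
  split_ifs <;> rfl

theorem pr_smul (a : L) (u v : Fin (n + 1) → L) : pr (a • u) (a • v) = a • pr u v := by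
  funext q
  unfold pr
  simp only [Pi.smul_apply]
  split_ifs <;> rfl

/-- `VV` as a linear map -/
noncomputable def VVl : (Fin c → MvPolynomial (Fin (n + 1)) L) →ₗ[L]
    (Fin 2 × Fin (n + 1) → L) where
  toFun := VV D x y
  map_add' G G' := by unfold VV; rw [map_add, map_add, pr_add]
  map_smul' a G := by unfold VV; rw [map_smul, map_smul, pr_smul, RingHom.id_apply]

theorem VVl_apply (G : Fin c → MvPolynomial (Fin (n + 1)) L) : VVl D x y G = VV D x y G := rfl

theorem hom_mon (i j : Fin (n + 1)) (b : Σ m : Fin c, Fin (d m + 1)) :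
    Hom (L := L) d (mon d i j b) := by
  intro m
  unfold mon
  split_ifs with h
  · subst h
    have h2 := ((isHomogeneous_X L i).pow (d b.1 - b.2.1)).mul
      ((isHomogeneous_X L j).pow b.2.1)
    have h1 : 1 * (d b.1 - b.2.1) + 1 * b.2.1 = d b.1 := by
      have := b.2.2
      omega
    rwa [h1] at h2
  · exact isHomogeneous_zero _ _ _

theorem co_mon {i0 j0 : Fin (n + 1)} (h : plu x y i0 j0 ≠ 0)
    (b b' : Σ m : Fin c, Fin (d m + 1)) :
    co x y i0 j0 (mon d i0 j0 b) b' = if b = b' then 1 else 0 := by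
  classical
  unfold co mon
  by_cases hm : b'.1 = b.1
  · rw [if_pos hm, lineP_mul, lineP_pow, lineP_pow, lineP_X, lineP_X, fx_i x y h, fx_j, fy_i,
      fy_j x y h]
    simp only [map_zero, mul_zero, add_zero, zero_add, map_one, mul_one, one_pow, one_mul]
    rw [Polynomial.coeff_X_pow]
    obtain ⟨m, a⟩ := b
    obtain ⟨m', a'⟩ := b'
    simp only at hm
    subst hm
    congr 1
    simp only [Sigma.mk.injEq, heq_eq_eq, true_and, eq_iff_iff]
    rw [Fin.ext_iff]
    exact eq_comm
  · rw [if_neg hm, if_neg]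
    · have : lineP (0 : MvPolynomial (Fin (n + 1)) L) (fx x y i0 j0) (fy x y i0 j0) = 0 :=
        map_zero _
      rw [this, Polynomial.coeff_zero]
    · intro h'
      exact hm (by rw [h'])

/-- the coefficients are linear -/
theorem co_sub_sum (i0 j0 : Fin (n + 1)) (G : Fin c → MvPolynomial (Fin (n + 1)) L)
    (a : (Σ m : Fin c, Fin (d m + 1)) → L)
    (G' : (Σ m : Fin c, Fin (d m + 1)) → Fin c → MvPolynomial (Fin (n + 1)) L)
    (b : Σ m : Fin c, Fin (d m + 1)) :
    co x y i0 j0 (G - ∑ b', a b' • G' b') b =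
      co x y i0 j0 G b - ∑ b', a b' * co x y i0 j0 (G' b') b := by
  unfold co lineP
  rw [Pi.sub_apply, map_sub, Polynomial.coeff_sub, Finset.sum_apply, map_sum,
    Polynomial.finsetSum_coeff]
  congr 1
  refine Finset.sum_congr rfl fun b' _ => ?_
  rw [Pi.smul_apply, map_smul, Polynomial.coeff_smul, smul_eq_mul]

/-- a tuple is determined on the line by its coefficients -/
theorem sub_onLine [CharZero L] {i0 j0 : Fin (n + 1)} (h : plu x y i0 j0 ≠ 0)
    {G : Fin c → MvPolynomial (Fin (n + 1)) L} (hG : Hom d G) :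
    Hom d (G - ∑ b : Σ m : Fin c, Fin (d m + 1), co x y i0 j0 G b • mon d i0 j0 b) ∧
    OnLine x y (G - ∑ b : Σ m : Fin c, Fin (d m + 1), co x y i0 j0 G b • mon d i0 j0 b) := by
  classical
  have h1 : Hom d (G - ∑ b : Σ m : Fin c, Fin (d m + 1),
      co x y i0 j0 G b • mon d i0 j0 b) := by
    intro m
    rw [Pi.sub_apply, Finset.sum_apply]
    refine (hG m).sub (IsHomogeneous.sum _ _ _ fun b _ => ?_)
    rw [Pi.smul_apply, smul_eq_C_mul]
    have := (isHomogeneous_C (Fin (n + 1)) (co x y i0 j0 G b)).mul (hom_mon (L := L) i0 j0 b m)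
    rwa [zero_add] at this
  refine ⟨h1, fun m => (lineP_frame x y h (h1 m)).2 ?_⟩
  ext a
  rw [Polynomial.coeff_zero]
  by_cases ha : a ≤ d m
  · have h2 := co_sub_sum x y i0 j0 G (co x y i0 j0 G) (fun b => mon d i0 j0 b)
      ⟨m, ⟨a, by omega⟩⟩
    have h3 : ∑ b' : Σ m : Fin c, Fin (d m + 1), co x y i0 j0 G b' *
        co x y i0 j0 (mon d i0 j0 b') (⟨m, ⟨a, by omega⟩⟩ : Σ m : Fin c, Fin (d m + 1)) =
        co x y i0 j0 G (⟨m, ⟨a, by omega⟩⟩ : Σ m : Fin c, Fin (d m + 1)) := by
      simp only [co_mon x y h]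
      simp
    rw [h3, sub_self] at h2
    exact h2
  · refine Polynomial.coeff_eq_zero_of_natDegree_lt ?_
    have := natDegree_lineP_le (fx x y i0 j0) (fy x y i0 j0) (h1 m)
    omega

theorem VV_mem [CharZero L] {i0 j0 : Fin (n + 1)} (h : plu x y i0 j0 ≠ 0)
    {G : Fin c → MvPolynomial (Fin (n + 1)) L} (hG : Hom d G) :
    VV D x y G ∈ SL D x y ⊔ Submodule.span L (Set.range fun b => VV D x y (mon d i0 j0 b)) := by
  obtain ⟨h1, h2⟩ := sub_onLine x y h hG
  have e1 : VV D x y G =
      VV D x y (G - ∑ b : Σ m : Fin c, Fin (d m + 1), co x y i0 j0 G b • mon d i0 j0 b) +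
      ∑ b : Σ m : Fin c, Fin (d m + 1), co x y i0 j0 G b • VV D x y (mon d i0 j0 b) := by
    simp only [← VVl_apply]
    rw [map_sub, map_sum]
    simp only [map_smul, sub_add_cancel]
  rw [e1]
  refine Submodule.add_mem _ (Submodule.mem_sup_left (Submodule.subset_span
    (Or.inr ⟨_, h1, h2, rfl⟩))) (Submodule.mem_sup_right (Submodule.sum_mem _ fun b _ =>
      Submodule.smul_mem _ _ (Submodule.subset_span ⟨b, rfl⟩)))

theorem WW_eq (p q : Fin (n + 1)) : WW D x y p q =
    pr (x q • Pi.single p 1) (y q • Pi.single p 1) +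
      VV D x y (fun m => X q * pderiv p (D.F m)) := by
  unfold WW VV WT
  rw [pr_add]

end lsur

/-- Module LSUR. -/
theorem lsur : LsurStatement := by
  classical
  intro L _ _ n c d D x y hxy i0 j0 h
  rw [eq_top_iff]
  set T := SL D x y ⊔ Submodule.span L (Set.range fun b => VV D x y (mon d i0 j0 b)) with hT
  have h1 : ∀ p q, pr (x q • Pi.single p 1) (y q • Pi.single p 1) ∈ T := by
    intro p q
    have e1 := WW_eq D x y p q
    rw [← sub_eq_iff_eq_add] at e1
    rw [← e1]
    refine Submodule.sub_mem _ (Submodule.mem_sup_left (Submodule.subset_span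
      (Or.inl (Or.inr ⟨p, q, rfl⟩)))) (VV_mem D x y h fun m => hom_XF' D m p q)
  have h2 : ∀ p, (pr (Pi.single p 1) 0 : Fin 2 × Fin (n + 1) → L) ∈ T := by
    intro p
    have e1 : (pr (Pi.single p 1) 0 : Fin 2 × Fin (n + 1) → L) =
        (y j0 / plu x y i0 j0) • pr (x i0 • Pi.single p 1) (y i0 • Pi.single p 1) +
        (- y i0 / plu x y i0 j0) • pr (x j0 • Pi.single p 1) (y j0 • Pi.single p 1) := by
      rw [← pr_smul, ← pr_smul, ← pr_add]
      congr 1
      · rw [smul_smul, smul_smul, ← add_smul]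
        have : y j0 / plu x y i0 j0 * x i0 + - y i0 / plu x y i0 j0 * x j0 = 1 := by
          field_simp
          unfold plu
          ring
        rw [this, one_smul]
      · rw [smul_smul, smul_smul, ← add_smul]
        have : y j0 / plu x y i0 j0 * y i0 + - y i0 / plu x y i0 j0 * y j0 = 0 := by
          field_simp
          ring
        rw [this, zero_smul]
    rw [e1]
    exact Submodule.add_mem _ (Submodule.smul_mem _ _ (h1 p i0))
      (Submodule.smul_mem _ _ (h1 p j0))
  have h3 : ∀ p, (pr 0 (Pi.single p 1) : Fin 2 × Fin (n + 1) → L) ∈ T := by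
    intro p
    have e1 : (pr 0 (Pi.single p 1) : Fin 2 × Fin (n + 1) → L) =
        (- x j0 / plu x y i0 j0) • pr (x i0 • Pi.single p 1) (y i0 • Pi.single p 1) +
        (x i0 / plu x y i0 j0) • pr (x j0 • Pi.single p 1) (y j0 • Pi.single p 1) := by
      rw [← pr_smul, ← pr_smul, ← pr_add]
      congr 1
      · rw [smul_smul, smul_smul, ← add_smul]
        have : - x j0 / plu x y i0 j0 * x i0 + x i0 / plu x y i0 j0 * x j0 = 0 := by
          field_simp
          ring
        rw [this, zero_smul]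
      · rw [smul_smul, smul_smul, ← add_smul]
        have : - x j0 / plu x y i0 j0 * y i0 + x i0 / plu x y i0 j0 * y j0 = 1 := by
          field_simp
          unfold plu
          ring
        rw [this, one_smul]
    rw [e1]
    exact Submodule.add_mem _ (Submodule.smul_mem _ _ (h1 p i0))
      (Submodule.smul_mem _ _ (h1 p j0))
  intro u _
  have e1 : u = ∑ p, (u (0, p) • pr (Pi.single p 1) 0 + u (1, p) • pr 0 (Pi.single p 1)) := by
    funext q
    obtain ⟨a, p⟩ := q
    rw [Finset.sum_apply]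
    simp only [Pi.add_apply, Pi.smul_apply, smul_eq_mul, pr]
    rw [Finset.sum_eq_single p]
    · fin_cases a <;> simp
    · intro b _ hb
      have : (Pi.single b 1 : Fin (n + 1) → L) p = 0 := Pi.single_eq_of_ne (Ne.symm hb) 1
      simp [this]
    · intro h'; exact absurd (Finset.mem_univ p) h'
  rw [e1]
  exact Submodule.sum_mem _ fun p _ => Submodule.add_mem _ (Submodule.smul_mem _ _ (h2 p))
    (Submodule.smul_mem _ _ (h3 p))

/-- the four columns are independent -/
theorem PP_li {L : Type} [Field L] {n : ℕ} {x y : Fin (n + 1) → L}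
    (hxy : LinearIndependent L ![x, y]) : LinearIndependent L (PP x y) := by
  classical
  rw [LinearIndependent.pair_iff] at hxy
  rw [Fintype.linearIndependent_iff]
  intro g hg
  have h1 : ∀ a : Fin 2, g (a, 0) • x + g (a, 1) • y = 0 := by
    intro a
    funext p
    have h2 := congrFun hg (a, p)
    rw [Finset.sum_apply, Fintype.sum_prod_type] at h2
    simp only [Pi.smul_apply, PP, smul_eq_mul, Fin.sum_univ_two, Pi.zero_apply] at h2
    simp only [Pi.add_apply, Pi.smul_apply, smul_eq_mul, Pi.zero_apply]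
    fin_cases a <;> simpa using h2
  rintro ⟨a, b⟩
  have h2 := hxy _ _ (h1 a)
  fin_cases b
  · exact h2.1
  · exact h2.2

/-- Module FOUR. -/
theorem four : FourStatement := by
  intro L _ _ n c d D x y hxy
  have h1 := finrank_span_eq_card (PP_li hxy)
  have h2 : Fintype.card (Fin 2 × Fin 2) = 4 := by simp
  rw [h2] at h1
  rw [← h1]
  refine Submodule.finrank_mono (Submodule.span_mono ?_)
  exact fun u hu => Or.inl (Or.inl hu)

end Pool.Agent.Lines.H19
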