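import Pool.Agent.Lib.MP_c7af3c_ag.LINES.H19.Fin

/-!
# MP_c7af3c_ag, project LINES: lines over extensions, and the main theorem
-/

set_option autoImplicit false

namespace Pool.Agent.Lines.H19

open MvPolynomial WithZero Pool.Agent.Gen Pool.Agent.Sharp Pool.Agent.Sharp.H54
open Pool.Agent.GenY.H46 Pool.Agent.Sharp.H46 AlgebraicGeometry CategoryTheory

/-- the restriction of `g` to the line through the two vectors of variables -/
noncomputable def uniLine {k : Type} [Field k] {n : ℕ} (g : MvPolynomial (Fin (n + 1)) k) :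
    Polynomial (MvPolynomial (Fin 2 × Fin (n + 1)) k) :=
  aeval (fun p => Polynomial.C (X (0, p)) + Polynomial.X * Polynomial.C (X (1, p))) g

theorem map_uniLine {k K : Type} [Field k] [Field K] (f : k →+* K) {n : ℕ}
    (g : MvPolynomial (Fin (n + 1)) k) (z : Fin 2 × Fin (n + 1) → K) :
    (uniLine g).map (eval₂Hom f z) =
      lineP (map f g) (fun j => z (0, j)) (fun j => z (1, j)) := by
  unfold uniLine lineP
  induction g using MvPolynomial.induction_on with
  | C a =>
    simp only [map_C, MvPolynomial.algHom_C, Polynomial.algebraMap_apply,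
      Polynomial.map_C, MvPolynomial.algebraMap_eq, coe_eval₂Hom, eval₂_C]
    rfl
  | add p q hp hq =>
    rw [map_add, Polynomial.map_add, hp, hq, map_add, map_add]
  | mul_X p j hp =>
    rw [map_mul, Polynomial.map_mul, hp, map_mul, map_mul]
    simp only [aeval_X, map_X, Polynomial.map_add, Polynomial.map_mul, Polynomial.map_C,
      Polynomial.map_X, coe_eval₂Hom, eval₂_X]

/-- a line over an extension gives a line over the base field -/
theorem line_descent (k : Type) [Field k] [IsAlgClosed k] [CharZero k] {n : ℕ} (K : Type) [Field K]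
    [Algebra k K] (P : Set (MvPolynomial (Fin (n + 1)) k))
    (hP : ∀ g ∈ P, ∃ e, g.IsHomogeneous e) (x y : Fin (n + 1) → K)
    (hxy : LinearIndependent K ![x, y])
    (h : ∀ g ∈ P, lineP (map (algebraMap k K) g) x y = 0) :
    ∃ u v : Fin (n + 1) → k, LinearIndependent k ![u, v] ∧ ∀ g ∈ P, lineP g u v = 0 := by
  classical
  have hK : CharZero K := charZero_of_injective_algebraMap (algebraMap k K).injective
  obtain ⟨i0, j0, hp⟩ := exists_plu hxy
  set f : k →+* K := algebraMap k K with hf
  set w : Fin 2 × Fin (n + 1) → K := fun q =>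
    if q.1 = 0 then fx x y i0 j0 q.2 else fy x y i0 j0 q.2 with hw
  set I : Ideal (MvPolynomial (Fin 2 × Fin (n + 1)) k) := Ideal.span
    ({X (0, i0) - 1, X (0, j0), X (1, i0), X (1, j0) - 1} ∪
      {q | ∃ g ∈ P, ∃ b : ℕ, q = (uniLine g).coeff b}) with hI
  have hw0 : (fun j => w (0, j)) = fx x y i0 j0 := by
    funext j
    simp [hw]
  have hw1 : (fun j => w (1, j)) = fy x y i0 j0 := by
    funext j
    simp [hw]
  have hle : I ≤ RingHom.ker (eval₂Hom f w) := by
    rw [hI, Ideal.span_le]
    rintro q (hq | ⟨g, hg, b, rfl⟩)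
    · rw [SetLike.mem_coe, RingHom.mem_ker]
      simp only [Set.mem_insert_iff, Set.mem_singleton_iff] at hq
      rcases hq with rfl | rfl | rfl | rfl
      · rw [map_sub, map_one, coe_eval₂Hom, eval₂_X, sub_eq_zero]
        exact (congrFun hw0 i0).trans (fx_i x y hp)
      · rw [coe_eval₂Hom, eval₂_X]
        exact (congrFun hw0 j0).trans (fx_j x y)
      · rw [coe_eval₂Hom, eval₂_X]
        exact (congrFun hw1 i0).trans (fy_i x y)
      · rw [map_sub, map_one, coe_eval₂Hom, eval₂_X, sub_eq_zero]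
        exact (congrFun hw1 j0).trans (fy_j x y hp)
    · rw [SetLike.mem_coe, RingHom.mem_ker, ← Polynomial.coeff_map, map_uniLine, hw0, hw1]
      obtain ⟨e, he⟩ := hP g hg
      rw [(lineP_frame x y hp (he.map f)).1 (h g hg), Polynomial.coeff_zero]
  have hne : I ≠ ⊤ := by
    intro h1
    have h2 : (1 : MvPolynomial (Fin 2 × Fin (n + 1)) k) ∈ RingHom.ker (eval₂Hom f w) :=
      hle (by rw [h1]; trivial)
    rw [RingHom.mem_ker, map_one] at h2
    exact one_ne_zero h2
  obtain ⟨M, hM, hIM⟩ := Ideal.exists_le_maximal I hne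
  obtain ⟨z, hz⟩ := isMaximal_iff_eq_vanishingIdeal_singleton.1 hM
  have hz0 : ∀ q ∈ I, eval z q = 0 := by
    intro q hq
    have h1 := hIM hq
    rw [hz, mem_vanishingIdeal_singleton_iff] at h1
    rwa [aeval_eq_eval] at h1
  refine ⟨fun j => z (0, j), fun j => z (1, j), ?_, ?_⟩
  · refine frame_li (i0 := i0) (j0 := j0) ?_ ?_ ?_ ?_
    · have h1 := hz0 (X (0, i0) - 1) (Ideal.subset_span (Or.inl (by simp)))
      rwa [map_sub, eval_X, map_one, sub_eq_zero] at h1
    · have h1 := hz0 (X (0, j0)) (Ideal.subset_span (Or.inl (by simp)))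
      rwa [eval_X] at h1
    · have h1 := hz0 (X (1, i0)) (Ideal.subset_span (Or.inl (by simp)))
      rwa [eval_X] at h1
    · have h1 := hz0 (X (1, j0) - 1) (Ideal.subset_span (Or.inl (by simp)))
      rwa [map_sub, eval_X, map_one, sub_eq_zero] at h1
  · intro g hg
    have h1 : (uniLine g).map (eval₂Hom (RingHom.id k) z) =
        lineP g (fun j => z (0, j)) (fun j => z (1, j)) := by
      rw [map_uniLine, map_id]
    rw [← h1]
    ext b
    rw [Polynomial.coeff_map, Polynomial.coeff_zero]
    exact hz0 _ (Ideal.subset_span (Or.inr ⟨g, hg, b, rfl⟩))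

/-- Theorem T for schemes finite over closed subsets which do not contain a line. -/
theorem mainT (hBad : BadlStatement) (k : Type) [Field k] [IsAlgClosed k] [CharZero k]
    (n c : ℕ) (d : Fin c → ℕ) (F : Fin c → MvPolynomial (Fin (n + 1)) k)
    (hF : ∀ m, (F m).IsHomogeneous (d m))
    (ha : AlgebraicIndependent ℤ (fun s : Ix (M := n) d => coeff s.1.2 (F s.1.1)))
    (hd : ∀ m, 1 ≤ d m) (e : ℕ) (h1 : 2 * n + 1 ≤ c + ∑ m, d m + e)
    (h2 : 2 * e + 2 + c ≤ n) (h3 : 3 + c ≤ n)
    (P : Set (MvPolynomial (Fin (n + 1)) k)) (hFP : Set.range F ⊆ P)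
    (hP : ∀ g ∈ P, ∃ e, g.IsHomogeneous e)
    (hno : ∀ x y : Fin (n + 1) → k, LinearIndependent k ![x, y] → ∃ g ∈ P, lineP g x y ≠ 0)
    (X : Over (Spec (CommRingCat.of k))) (hX : FinOver k n P X) : IsGL k X ∧ IsAH k X := by
  constructor
  · refine grplY k n P hP (fun K' _ _ _ => ?_) X hX
    have : CharZero K' := charZero_of_injective_algebraMap (algebraMap k K').injective
    refine finSolP d K' hBad (fun m => map (algebraMap k K') (F m)) (fun m => (hF m).map _) ?_
      hd e h1 h2 h3 (MvPolynomial.map (algebraMap k K') '' P) ?_ ?_ ?_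
    · have h1 : (fun s : Ix (M := n) d => coeff s.1.2 (map (algebraMap k K') (F s.1.1))) =
          (algebraMap k K').toIntAlgHom ∘
            (fun s : Ix (M := n) d => coeff s.1.2 (F s.1.1)) := by
        funext s
        rw [coeff_map]
        rfl
      rw [h1]
      exact ha.map' (f := (algebraMap k K').toIntAlgHom) (algebraMap k K').injective
    · rintro _ ⟨m, rfl⟩
      exact ⟨F m, hFP ⟨m, rfl⟩, rfl⟩
    · rintro _ ⟨g, hg, rfl⟩
      obtain ⟨e', he'⟩ := hP g hg
      exact ⟨e', he'.map _⟩
    · intro x y hxy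
      by_contra hcon
      push Not at hcon
      obtain ⟨u, v, huv, h0⟩ := line_descent k K' P hP x y hxy
        (fun g hg => hcon _ ⟨g, hg, rfl⟩)
      obtain ⟨g, hg, hg0⟩ := hno u v huv
      exact hg0 (h0 g hg)
  · exact sfinY k n P hP (finSolP d k hBad F hF ha hd e h1 h2 h3 P hFP hP hno) X hX

end Pool.Agent.Lines.H19
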